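import Mathlib

set_option autoImplicit false
open Finset

namespace Pool.Agent.Q265.Fru

variable {V : Type*} [Fintype V] [DecidableEq V]

/-- edges inside `T` -/
def inn (E : Finset (Finset V)) (T : Finset V) : Finset (Finset V) := E.filter (· ⊆ T)

/-- a graph given by its edge set -/
def IsG (E : Finset (Finset V)) : Prop := ∀ e ∈ E, e.card = 2

/-- the number of frustrated triples -/
def fr (E : Finset (Finset V)) : ℕ :=
  (((univ : Finset V).powersetCard 3).filter fun T => Odd (inn E T).card).card

/-- triples with at least two edges -/
def LL (E : Finset (Finset V)) : Finset (Finset V) :=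
  ((univ : Finset V).powersetCard 3).filter fun T => 2 ≤ (inn E T).card

theorem inn_le {E : Finset (Finset V)} (hE : IsG E) {T : Finset V} (hT : T.card = 3) :
    (inn E T).card ≤ 3 := by
  have h : inn E T ⊆ T.powersetCard 2 := by
    intro e he
    rw [inn, mem_filter] at he
    rw [mem_powersetCard]
    exact ⟨he.2, hE e he.1⟩
  have := card_le_card h
  rw [card_powersetCard, hT] at this
  simpa using this

theorem card_sup {e : Finset V} (he : e.card = 2) :
    (((univ : Finset V).powersetCard 3).filter fun T => e ⊆ T).card = Fintype.card V - 2 := by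
  have h : (((univ : Finset V).powersetCard 3).filter fun T => e ⊆ T) =
      (univ \ e).image (fun x => insert x e) := by
    ext T
    simp only [mem_filter, mem_powersetCard, subset_univ, true_and, mem_image, mem_sdiff, mem_univ]
    constructor
    · rintro ⟨h1, h2⟩
      have h3 : (T \ e).card = 1 := by rw [card_sdiff_of_subset h2, h1, he]
      obtain ⟨x, hx⟩ := card_eq_one.1 h3
      refine ⟨x, ?_, ?_⟩
      · have : x ∈ T \ e := by rw [hx]; exact mem_singleton_self x
        exact (mem_sdiff.1 this).2
      · rw [insert_eq, ← hx, union_comm]
        exact union_sdiff_of_subset h2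
    · rintro ⟨x, hx, rfl⟩
      refine ⟨?_, subset_insert _ _⟩
      rw [card_insert_of_notMem hx, he]
  rw [h, card_image_of_injOn]
  · rw [card_sdiff_of_subset (subset_univ _), he, card_univ]
  · intro x hx y hy hxy
    simp only [coe_sdiff, coe_univ, Set.mem_sdiff, Set.mem_univ, mem_coe, true_and] at hx hy
    have : x ∈ insert y e := by
      have h1 : x ∈ insert x e := mem_insert_self _ _
      simp only at hxy
      rwa [hxy] at h1
    rcases mem_insert.1 this with h | h
    · exact h
    · exact absurd h hx

theorem sum_inn {E : Finset (Finset V)} (hE : IsG E) :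
    ∑ T ∈ (univ : Finset V).powersetCard 3, (inn E T).card = E.card * (Fintype.card V - 2) := by
  simp only [inn]
  have h := sum_card_bipartiteAbove_eq_sum_card_bipartiteBelow (s := (univ : Finset V).powersetCard 3)
    (t := E) (fun (T e : Finset V) => e ⊆ T)
  simp only [bipartiteAbove, bipartiteBelow] at h
  rw [h]
  rw [sum_congr rfl (fun e he => card_sup (hE e he))]
  simp

theorem fr_add {E : Finset (Finset V)} (hE : IsG E) :
    fr E + 2 * (LL E).card = E.card * (Fintype.card V - 2) := by
  rw [← sum_inn hE, fr, LL, card_filter, card_filter, mul_sum, ← sum_add_distrib]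
  refine sum_congr rfl fun T hT => ?_
  have hT3 := (mem_powersetCard.1 hT).2
  have h := inn_le hE hT3
  generalize (inn E T).card = m at h
  interval_cases m <;> simp (decide := true)

end Pool.Agent.Q265.Fru
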