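import Pool.Agent.Q265.Fru.Suf

set_option autoImplicit false
open Finset

namespace Pool.Agent.Q265.Fru

variable {V : Type*} [Fintype V] [DecidableEq V]

/-- indicator of an edge -/
def ind (E : Finset (Finset V)) (a b : V) : ℕ := if ({a, b} : Finset V) ∈ E then 1 else 0

omit [Fintype V] in
theorem pairs3 {a b c : V} (hab : a ≠ b) (hac : a ≠ c) (hbc : b ≠ c) :
    ({a, b, c} : Finset V).powersetCard 2 = {{a, b}, {a, c}, {b, c}} := by
  ext p
  simp only [mem_powersetCard, mem_insert, mem_singleton]
  constructor
  · rintro ⟨h1, h2⟩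
    obtain ⟨y, z, hyz, rfl⟩ := card_eq_two.1 h2
    have hy : y ∈ ({a, b, c} : Finset V) := h1 (by simp)
    have hz : z ∈ ({a, b, c} : Finset V) := h1 (by simp)
    simp only [mem_insert, mem_singleton] at hy hz
    rcases hy with rfl | rfl | rfl <;> rcases hz with rfl | rfl | rfl
    · exact absurd rfl hyz
    · exact Or.inl rfl
    · exact Or.inr (Or.inl rfl)
    · exact Or.inl (pair_comm _ _)
    · exact absurd rfl hyz
    · exact Or.inr (Or.inr rfl)
    · exact Or.inr (Or.inl (pair_comm _ _))
    · exact Or.inr (Or.inr (pair_comm _ _))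
    · exact absurd rfl hyz
  · rintro (rfl | rfl | rfl)
    · exact ⟨by intro x; simp only [mem_insert, mem_singleton]; tauto, card_pair hab⟩
    · exact ⟨by intro x; simp only [mem_insert, mem_singleton]; tauto, card_pair hac⟩
    · exact ⟨by intro x; simp only [mem_insert, mem_singleton]; tauto, card_pair hbc⟩

omit [Fintype V] in
theorem inn3 {E : Finset (Finset V)} (hE : IsG E) {a b c : V} (hab : a ≠ b) (hac : a ≠ c)
    (hbc : b ≠ c) : (inn E {a, b, c}).card = ind E a b + ind E a c + ind E b c := by
  have h : inn E {a, b, c} = (({a, b, c} : Finset V).powersetCard 2).filter (· ∈ E) := by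
    ext p
    simp only [inn, mem_filter, mem_powersetCard]
    constructor
    · rintro ⟨h1, h2⟩; exact ⟨⟨h2, hE p h1⟩, h1⟩
    · rintro ⟨⟨h1, -⟩, h2⟩; exact ⟨h2, h1⟩
  have n1 : ({a, b} : Finset V) ∉ ({{a, c}, {b, c}} : Finset (Finset V)) := by
    simp only [mem_insert, mem_singleton, not_or]
    constructor
    · intro h
      exact hbc (pair_inj (by exact hab.symm) h)
    · intro h
      rw [pair_comm a b] at h
      exact hac (pair_inj hab h)
  have n2 : ({a, c} : Finset V) ∉ ({{b, c}} : Finset (Finset V)) := by
    rw [mem_singleton]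
    intro h
    rw [pair_comm a c, pair_comm b c] at h
    exact hab (pair_inj hac h)
  rw [h, card_filter, pairs3 hab hac hbc, sum_insert n1, sum_insert n2, sum_singleton]
  simp only [ind]
  ring

/-- the graph of the frustrated triples at `v` -/
def link (E : Finset (Finset V)) (v : V) : Finset (Finset V) :=
  ((univ : Finset V).powersetCard 2).filter fun e => v ∉ e ∧ Odd (inn E (insert v e)).card

theorem link_G (E : Finset (Finset V)) (v : V) : IsG (link E v) := by
  intro e he
  rw [link, mem_filter, mem_powersetCard] at he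
  exact he.1.2

theorem ind_comm (E : Finset (Finset V)) (a b : V) : ind E a b = ind E b a := by
  unfold ind
  rw [pair_comm]

theorem link_ind {E : Finset (Finset V)} (hE : IsG E) {v a b : V} (hva : v ≠ a) (hvb : v ≠ b)
    (hab : a ≠ b) : ind (link E v) a b = (ind E v a + ind E v b + ind E a b) % 2 := by
  rw [← inn3 hE hva hvb hab]
  unfold ind
  have : (({a, b} : Finset V) ∈ link E v) ↔ Odd (inn E {v, a, b}).card := by
    rw [link, mem_filter, mem_powersetCard]
    constructor
    · rintro ⟨-, -, h⟩; exact h
    · intro h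
      refine ⟨⟨subset_univ _, card_pair hab⟩, ?_, h⟩
      simp only [mem_insert, mem_singleton, not_or]
      exact ⟨hva, hvb⟩
  simp only [this]
  split_ifs with h
  · exact (Nat.odd_iff.1 h).symm
  · exact (Nat.even_iff.1 (Nat.not_odd_iff_even.1 h)).symm

theorem link_odd {E : Finset (Finset V)} (hE : IsG E) (v : V) {T : Finset V} (hT : T.card = 3) :
    Odd (inn (link E v) T).card ↔ Odd (inn E T).card := by
  by_cases hv : v ∈ T
  · have h1 : (T.erase v).card = 2 := by rw [card_erase_of_mem hv, hT]
    obtain ⟨a, b, hab, he⟩ := card_eq_two.1 h1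
    have hTe : T = {v, a, b} := by rw [← insert_erase hv, he]
    have ha : a ∈ T.erase v := by rw [he]; simp
    have hb : b ∈ T.erase v := by rw [he]; simp
    have hva : v ≠ a := (ne_of_mem_erase ha).symm
    have hvb : v ≠ b := (ne_of_mem_erase hb).symm
    rw [hTe, inn3 (link_G E v) hva hvb hab, inn3 hE hva hvb hab, link_ind hE hva hvb hab]
    have z : ∀ x, ind (link E v) v x = 0 := by
      intro x
      unfold ind
      rw [if_neg]
      rw [link, mem_filter]
      rintro ⟨-, h, -⟩
      exact h (by simp)
    rw [z, z, Nat.odd_iff, Nat.odd_iff]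
    omega
  · obtain ⟨a, b, c, hab, hac, hbc, rfl⟩ := card_eq_three.1 hT
    have hva : v ≠ a := fun h => hv (by rw [h]; simp)
    have hvb : v ≠ b := fun h => hv (by rw [h]; simp)
    have hvc : v ≠ c := fun h => hv (by rw [h]; simp)
    rw [inn3 (link_G E v) hab hac hbc, inn3 hE hab hac hbc, link_ind hE hva hvb hab,
      link_ind hE hva hvc hac, link_ind hE hvb hvc hbc, Nat.odd_iff, Nat.odd_iff]
    omega

theorem link_card (E : Finset (Finset V)) (v : V) :
    (link E v).card ≤ ((((univ : Finset V).powersetCard 3).filter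
      fun T => Odd (inn E T).card).filter fun T => v ∈ T).card := by
  apply card_le_card_of_injOn (fun e => insert v e)
  · intro e he
    have he' := mem_coe.1 he
    rw [link, mem_filter, mem_powersetCard] at he'
    rw [mem_coe, mem_filter, mem_filter, mem_powersetCard]
    exact ⟨⟨⟨subset_univ _, by rw [card_insert_of_notMem he'.2.1, he'.1.2]⟩, he'.2.2⟩,
      mem_insert_self _ _⟩
  · intro e he e' he' h
    have h1 := mem_coe.1 he
    have h2 := mem_coe.1 he'
    rw [link, mem_filter] at h1 h2
    simp only at h
    rw [← erase_insert h1.2.1, h, erase_insert h2.2.1]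

theorem exists_min {E : Finset (Finset V)} (hE : IsG E) :
    ∃ E' : Finset (Finset V), IsG E' ∧ fr E' = fr E ∧ Fintype.card V * E'.card ≤ 3 * fr E := by
  classical
  let P : Finset (Finset V) → Prop := fun E' => IsG E' ∧
    ∀ T : Finset V, T.card = 3 → (Odd (inn E' T).card ↔ Odd (inn E T).card)
  obtain ⟨E', hE', hmin⟩ := exists_min_image ((univ : Finset (Finset (Finset V))).filter P)
    (fun E' => E'.card) ⟨E, by rw [mem_filter]; exact ⟨mem_univ _, hE, fun _ _ => Iff.rfl⟩⟩
  rw [mem_filter] at hE'
  obtain ⟨-, hG, hodd⟩ := hE'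
  have hset : ((univ : Finset V).powersetCard 3).filter (fun T => Odd (inn E' T).card) =
      ((univ : Finset V).powersetCard 3).filter (fun T => Odd (inn E T).card) := by
    apply filter_congr
    intro T hT
    exact hodd T (mem_powersetCard.1 hT).2
  have hfr : fr E' = fr E := by
    unfold fr
    rw [hset]
  refine ⟨E', hG, hfr, ?_⟩
  have h1 : ∀ v : V, E'.card ≤ ((((univ : Finset V).powersetCard 3).filter
      fun T => Odd (inn E T).card).filter fun T => v ∈ T).card := by
    intro v
    refine le_trans ?_ (link_card E v)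
    apply hmin
    rw [mem_filter]
    exact ⟨mem_univ _, link_G E v, fun T hT => link_odd hE v hT⟩
  have h2 := sum_card_bipartiteAbove_eq_sum_card_bipartiteBelow (s := (univ : Finset V))
    (t := ((univ : Finset V).powersetCard 3).filter fun T => Odd (inn E T).card)
    (fun (v : V) (T : Finset V) => v ∈ T)
  simp only [bipartiteAbove, bipartiteBelow] at h2
  have h3 : ∀ T ∈ ((univ : Finset V).powersetCard 3).filter (fun T => Odd (inn E T).card),
      ((univ : Finset V).filter fun v => v ∈ T).card = 3 := by
    intro T hT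
    rw [mem_filter, mem_powersetCard] at hT
    rw [← hT.1.2]
    congr 1
    ext x; simp
  rw [sum_congr rfl h3, sum_const, smul_eq_mul] at h2
  have h4 : Fintype.card V * E'.card ≤ ∑ v : V, ((((univ : Finset V).powersetCard 3).filter
      fun T => Odd (inn E T).card).filter fun T => v ∈ T).card := by
    rw [← card_univ, ← smul_eq_mul, ← sum_const]
    exact sum_le_sum fun v _ => h1 v
  rw [h2] at h4
  unfold fr
  linarith

theorem LL_le_choose {E : Finset (Finset V)} (hE : IsG E) : (LL E).card ≤ E.card.choose 2 := by
  rw [← card_powersetCard]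
  have hsub : LL E ⊆ (E.powersetCard 2).image fun P => P.biUnion id := by
    intro T hT
    obtain ⟨e1, h1, e2, h2, hne, hu, -⟩ := exists_two hE hT
    rw [mem_image]
    refine ⟨{e1, e2}, ?_, by rw [hu]; ext x; simp⟩
    rw [mem_powersetCard]
    refine ⟨?_, card_pair hne⟩
    intro e he
    rcases mem_insert.1 he with h | h
    · rw [h]; exact h1
    · rw [mem_singleton.1 h]; exact h2
  exact (card_le_card hsub).trans card_image_le

/-- every number of frustrated triples comes from a graph with few edges -/
theorem structure_all {E : Finset (Finset V)} (hE : IsG E) :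
    ∃ t L : ℕ, Fintype.card V * t ≤ 3 * fr E ∧ L ≤ t.choose 2 ∧ ¬ Gap t L ∧
      fr E + 2 * L = t * (Fintype.card V - 2) := by
  obtain ⟨E', h1, h2, h3⟩ := exists_min hE
  refine ⟨E'.card, (LL E').card, h3, LL_le_choose h1, not_gap h1, ?_⟩
  rw [← h2]
  exact fr_add h1

end Pool.Agent.Q265.Fru
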