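import Pool.Agent.Q265.Fru.Cls

set_option autoImplicit false
open Finset

namespace Pool.Agent.Q265.Fru

variable {V : Type*} [Fintype V] [DecidableEq V]

/-- all edges inside `W` -/
def Ins (E : Finset (Finset V)) (W : Finset V) : Prop := ∀ e ∈ E, e ⊆ W

omit [Fintype V] in
theorem exists_freeW {E : Finset (Finset V)} (hE : IsG E) {W : Finset V}
    (hc : 2 * (E.card + 1) ≤ W.card) :
    ∃ x ∈ W, ∃ y ∈ W, x ≠ y ∧ (∀ e ∈ E, x ∉ e) ∧ (∀ e ∈ E, y ∉ e) := by
  have h1 : (E.biUnion id).card ≤ 2 * E.card := by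
    refine card_biUnion_le.trans ?_
    have : ∀ e ∈ E, (id e : Finset V).card = 2 := fun e he => hE e he
    rw [sum_congr rfl this]
    simp [mul_comm]
  have h2 : 1 < (W \ E.biUnion id).card := by
    have := le_card_sdiff (E.biUnion id) W
    omega
  obtain ⟨x, hx, y, hy, hxy⟩ := one_lt_card.1 h2
  refine ⟨x, (mem_sdiff.1 hx).1, y, (mem_sdiff.1 hy).1, hxy, ?_, ?_⟩
  · intro e he h
    exact (mem_sdiff.1 hx).2 (mem_biUnion.2 ⟨e, he, h⟩)
  · intro e he h
    exact (mem_sdiff.1 hy).2 (mem_biUnion.2 ⟨e, he, h⟩)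

theorem add_isoW (W : Finset V) (m : ℕ) : ∀ {E : Finset (Finset V)}, IsG E → Ins E W →
    2 * (E.card + m) ≤ W.card →
    ∃ E' : Finset (Finset V), IsG E' ∧ Ins E' W ∧ E'.card = E.card + m ∧ LL E' = LL E := by
  induction m with
  | zero => intro E hE hI _; exact ⟨E, hE, hI, rfl, rfl⟩
  | succ m ih =>
    intro E hE hI hc
    obtain ⟨x, hxW, y, hyW, hxy, hx, hy⟩ := exists_freeW (W := W) hE (by omega)
    have hnot : ({x, y} : Finset V) ∉ E := fun h => hx _ h (by simp)
    have hG : IsG (insert {x, y} E) := by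
      intro e he
      rcases mem_insert.1 he with rfl | h
      · exact card_pair hxy
      · exact hE e h
    have hI' : Ins (insert {x, y} E) W := by
      intro e he
      rcases mem_insert.1 he with rfl | h
      · intro z hz
        simp only [mem_insert, mem_singleton] at hz
        rcases hz with rfl | rfl <;> assumption
      · exact hI e h
    have hcard : (insert {x, y} E).card = E.card + 1 := card_insert_of_notMem hnot
    obtain ⟨E', h1, h1', h2, h3⟩ := ih hG hI' (by rw [hcard]; omega)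
    refine ⟨E', h1, h1', by rw [h2, hcard]; ring, ?_⟩
    rw [h3, iso_LL hE hxy hx hy]

theorem suffW (W : Finset V) {t L : ℕ} (hV : 2 * t ≤ W.card) (hL : L ≤ t.choose 2)
    (hg : ¬ Gap t L) :
    ∃ E : Finset (Finset V), IsG E ∧ Ins E W ∧ E.card = t ∧ (LL E).card = L := by
  rcases Nat.eq_zero_or_pos t with rfl | ht
  · have hL0 : L = 0 := by simpa using hL
    subst hL0
    refine ⟨∅, by intro e he; simp at he, by intro e he; simp at he, rfl, ?_⟩
    rw [card_eq_zero, LL, filter_eq_empty_iff]
    intro T _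
    simp [inn]
  obtain ⟨d, hd1, hd2, hd3⟩ := tri_level L
  have hdt : d ≤ t := by
    by_contra hc
    have h1 : (t + 1).choose 2 ≤ d.choose 2 := Nat.choose_le_choose 2 (by omega)
    rw [cs] at h1
    omega
  obtain ⟨s, rfl⟩ : ∃ s, t = d + s := ⟨t - d, by omega⟩
  have hup : L ≤ d.choose 2 + (s + 1).choose 2 := by
    by_contra hc
    apply hg
    refine ⟨s, by omega, ?_, ?_⟩
    · rw [show d + s - s = d by omega]; omega
    · rw [show d + s - s = d by omega]; exact hd3
  obtain ⟨r, rfl⟩ : ∃ r, L = d.choose 2 + r := ⟨L - d.choose 2, by omega⟩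
  have hrd : r + 1 ≤ d := by
    rw [cs] at hd3
    omega
  have hrs : r ≤ (s + 1).choose 2 := by omega
  obtain ⟨j, c, h1, h2⟩ := tri_upper r
  have hjr : j ≤ r := by
    rcases h2 with ⟨h, -⟩ | h
    · omega
    · rw [cs] at h1
      have h3 : j - 1 ≤ j.choose 2 := by
        obtain ⟨i, rfl⟩ : ∃ i, j = i + 1 := ⟨j - 1, by omega⟩
        rw [cs]
        omega
      omega
  have hjs : j ≤ s := by
    by_contra hc
    have h3 : (s + 1).choose 2 ≤ j.choose 2 := Nat.choose_le_choose 2 (by omega)
    rw [cs] at h1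
    omega
  -- the sets
  have hcard2 : 1 < W.card := by omega
  obtain ⟨p, hpW0, q, hqW0, hpq⟩ := one_lt_card.1 hcard2
  have hsubW : ({p, q} : Finset V) ⊆ W := by
    intro z hz
    simp only [mem_insert, mem_singleton] at hz
    rcases hz with rfl | rfl <;> assumption
  have hU : (W \ {p, q}).card = W.card - 2 := by
    rw [card_sdiff_of_subset hsubW, card_pair hpq]
  obtain ⟨Z, hZU, hZ⟩ := exists_subset_card_eq
    (s := W \ {p, q}) (n := d - 1 + (j - c)) (by rw [hU]; omega)
  obtain ⟨A, hAZ, hA⟩ := exists_subset_card_eq (s := Z) (n := d - 1) (by omega)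
  obtain ⟨C, hCA, hC⟩ := exists_subset_card_eq (s := A) (n := c) (by omega)
  set B := (Z \ A) ∪ C with hB
  have hZW : Z ⊆ W := fun z hz => (mem_sdiff.1 (hZU hz)).1
  have hpZ : p ∉ Z := fun h => (mem_sdiff.1 (hZU h)).2 (by simp)
  have hqZ : q ∉ Z := fun h => (mem_sdiff.1 (hZU h)).2 (by simp)
  have hBZ : B ⊆ Z := union_subset sdiff_subset (hCA.trans hAZ)
  have hBcard : B.card = j := by
    rw [hB, card_union_of_disjoint, card_sdiff_of_subset hAZ, hZ, hA, hC]
    · omega
    · rw [disjoint_left]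
      intro x hx hx'
      exact (mem_sdiff.1 hx).2 (hCA hx')
  have hAB : A ∪ B = Z := by
    apply Subset.antisymm (union_subset hAZ hBZ)
    intro x hx
    by_cases h : x ∈ A
    · exact mem_union_left _ h
    · exact mem_union_right _ (mem_union_left _ (mem_sdiff.2 ⟨hx, h⟩))
  have hpA : p ∉ A := fun h => hpZ (hAZ h)
  have hqA : q ∉ A := fun h => hqZ (hAZ h)
  have hpB : p ∉ B := fun h => hpZ (hBZ h)
  have hqB : q ∉ B := fun h => hqZ (hBZ h)
  have hG := dstar_G (A := A) (B := B) hpq hpA hqB
  have hI : Ins (dstar p q A B) W := by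
    intro e he
    rw [mem_dstar] at he
    rcases he with rfl | ⟨a, ha, rfl⟩ | ⟨b, hb, rfl⟩
    · exact hsubW
    · intro z hz
      simp only [mem_insert, mem_singleton] at hz
      rcases hz with rfl | rfl
      · exact hpW0
      · exact hZW (hAZ ha)
    · intro z hz
      simp only [mem_insert, mem_singleton] at hz
      rcases hz with rfl | rfl
      · exact hqW0
      · exact hZW (hBZ hb)
  have hc := dstar_card hpq hpA hqA hpB hqB
  have hLc := dstar_LL_card hpq hpA hqA hpB hqB
  rw [hA, hBcard] at hc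
  rw [hAB, hZ, hA, hBcard] at hLc
  obtain ⟨E', g1, g1', g2, g3⟩ := add_isoW W (s - j) hG hI (by rw [hc]; omega)
  refine ⟨E', g1, g1', by rw [g2, hc]; omega, ?_⟩
  rw [g3, hLc]
  obtain ⟨i, rfl⟩ : ∃ i, d = i + 1 := ⟨d - 1, by omega⟩
  rw [cs]
  rw [cs] at h1
  simp only [Nat.add_sub_cancel]
  omega

/-- graphs on disjoint vertex sets -/
theorem LL_union {E F : Finset (Finset V)} (hE : IsG E) (hF : IsG F) {A W : Finset V}
    (hA : Ins E A) (hW : Ins F W) (hd : Disjoint A W) :
    IsG (E ∪ F) ∧ (E ∪ F).card = E.card + F.card ∧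
      (LL (E ∪ F)).card = (LL E).card + (LL F).card := by
  have hdis : ∀ x, x ∈ A → x ∈ W → False := fun x h1 h2 => disjoint_left.1 hd h1 h2
  have hG : IsG (E ∪ F) := by
    intro e he
    rcases mem_union.1 he with h | h
    · exact hE e h
    · exact hF e h
  refine ⟨hG, ?_, ?_⟩
  · apply card_union_of_disjoint
    rw [disjoint_left]
    intro e h1 h2
    have hne : e.Nonempty := card_pos.1 (by rw [hE e h1]; norm_num)
    obtain ⟨x, hx⟩ := hne
    exact hdis x (hA e h1 hx) (hW e h2 hx)
  · have hu : LL (E ∪ F) = LL E ∪ LL F := by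
      apply Subset.antisymm
      · intro T hT
        obtain ⟨e1, h1, e2, h2, hne, hu, v, hv1, hv2⟩ := exists_two hG hT
        have hT3 := (mem_LL.1 hT).1
        have s1 : e1 ⊆ T := by rw [hu]; exact subset_union_left
        have s2 : e2 ⊆ T := by rw [hu]; exact subset_union_right
        rcases mem_union.1 h1 with h1 | h1 <;> rcases mem_union.1 h2 with h2 | h2
        · exact mem_union_left _ (mem_LL_of hT3 h1 h2 hne s1 s2)
        · exact (hdis v (hA _ h1 hv1) (hW _ h2 hv2)).elim
        · exact (hdis v (hA _ h2 hv2) (hW _ h1 hv1)).elim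
        · exact mem_union_right _ (mem_LL_of hT3 h1 h2 hne s1 s2)
      · intro T hT
        rcases mem_union.1 hT with h | h
        · obtain ⟨e1, h1, e2, h2, hne, hu, -⟩ := exists_two hE h
          exact mem_LL_of (mem_LL.1 h).1 (mem_union_left _ h1) (mem_union_left _ h2) hne
            (by rw [hu]; exact subset_union_left) (by rw [hu]; exact subset_union_right)
        · obtain ⟨e1, h1, e2, h2, hne, hu, -⟩ := exists_two hF h
          exact mem_LL_of (mem_LL.1 h).1 (mem_union_right _ h1) (mem_union_right _ h2) hne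
            (by rw [hu]; exact subset_union_left) (by rw [hu]; exact subset_union_right)
    rw [hu]
    apply card_union_of_disjoint
    rw [disjoint_left]
    intro T h1 h2
    obtain ⟨e1, g1, e2, g2, hne, hu, v, hv1, hv2⟩ := exists_two hE h1
    obtain ⟨f1, k1, f2, k2, hne', hu', -⟩ := exists_two hF h2
    have : v ∈ T := by rw [hu]; exact mem_union_left _ hv1
    rw [hu'] at this
    rcases mem_union.1 this with h | h
    · exact hdis v (hA _ g1 hv1) (hW _ k1 h)
    · exact hdis v (hA _ g1 hv1) (hW _ k2 h)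

theorem clique (A : Finset V) : IsG (A.powersetCard 2) ∧ Ins (A.powersetCard 2) A ∧
    (A.powersetCard 2).card = A.card.choose 2 ∧ (LL (A.powersetCard 2)).card = A.card.choose 3 := by
  have hG : IsG (A.powersetCard 2) := fun e he => (mem_powersetCard.1 he).2
  refine ⟨hG, fun e he => (mem_powersetCard.1 he).1,
    card_powersetCard _ _, ?_⟩
  rw [← card_powersetCard]
  congr 1
  apply Subset.antisymm
  · intro T hT
    obtain ⟨e1, h1, e2, h2, hne, hu, -⟩ := exists_two hG hT
    rw [mem_powersetCard]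
    refine ⟨?_, (mem_LL.1 hT).1⟩
    rw [hu]
    exact union_subset (mem_powersetCard.1 h1).1 (mem_powersetCard.1 h2).1
  · intro T hT
    rw [mem_powersetCard] at hT
    obtain ⟨a, b, c, hab, hac, hbc, rfl⟩ := card_eq_three.1 hT.2
    have ha : a ∈ A := hT.1 (by simp)
    have hb : b ∈ A := hT.1 (by simp)
    have hc : c ∈ A := hT.1 (by simp)
    refine mem_LL_of hT.2 (e1 := {a, b}) (e2 := {a, c}) ?_ ?_ ?_ ?_ ?_
    · rw [mem_powersetCard]
      refine ⟨?_, card_pair hab⟩
      intro z hz
      simp only [mem_insert, mem_singleton] at hz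
      rcases hz with rfl | rfl <;> assumption
    · rw [mem_powersetCard]
      refine ⟨?_, card_pair hac⟩
      intro z hz
      simp only [mem_insert, mem_singleton] at hz
      rcases hz with rfl | rfl <;> assumption
    · intro h
      exact hbc (pair_inj hab.symm h)
    · intro x; simp only [mem_insert, mem_singleton]; tauto
    · intro x; simp only [mem_insert, mem_singleton]; tauto

/-- two cliques and a graph with few edges -/
theorem cover {α β w u L : ℕ} (hw : α + β + w = Fintype.card V) (hu : 2 * u ≤ w)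
    (hL : L ≤ u.choose 2) (hg : ¬ Gap u L) :
    ∃ E : Finset (Finset V), IsG E ∧ fr E + 2 * (α.choose 3 + β.choose 3 + L) =
      (α.choose 2 + β.choose 2 + u) * (Fintype.card V - 2) := by
  obtain ⟨A, -, hA⟩ := exists_subset_card_eq (s := (univ : Finset V)) (n := α)
    (by rw [card_univ]; omega)
  have hAc : (univ \ A : Finset V).card = β + w := by
    rw [card_sdiff_of_subset (subset_univ _), card_univ]; omega
  obtain ⟨B, hBs, hB⟩ := exists_subset_card_eq (s := (univ \ A : Finset V)) (n := β)
    (by omega)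
  have hWc : ((univ \ A) \ B : Finset V).card = w := by
    rw [card_sdiff_of_subset hBs]; omega
  obtain ⟨H, h1, h2, h3, h4⟩ := suffW ((univ \ A) \ B) (t := u) (L := L) (by omega) hL hg
  obtain ⟨c1, c2, c3, c4⟩ := clique A
  obtain ⟨b1, b2, b3, b4⟩ := clique B
  have d1 : Disjoint A B := by
    rw [disjoint_left]
    intro x hx hx'
    exact (mem_sdiff.1 (hBs hx')).2 hx
  have d2 : Disjoint (A ∪ B) ((univ \ A) \ B) := by
    rw [disjoint_left]
    intro x hx hx'
    rw [mem_sdiff, mem_sdiff] at hx'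
    rcases mem_union.1 hx with h | h
    · exact hx'.1.2 h
    · exact hx'.2 h
  obtain ⟨u1, u2, u3⟩ := LL_union c1 b1 c2 b2 d1
  have u4 : Ins (A.powersetCard 2 ∪ B.powersetCard 2) (A ∪ B) := by
    intro e he
    rcases mem_union.1 he with h | h
    · exact (c2 e h).trans subset_union_left
    · exact (b2 e h).trans subset_union_right
  obtain ⟨v1, v2, v3⟩ := LL_union u1 h1 u4 h2 d2
  refine ⟨_, v1, ?_⟩
  have := fr_add v1
  rw [v2, v3, u2, u3, c3, b3, c4, b4, h3, h4, hA, hB] at this
  rw [← this]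

end Pool.Agent.Q265.Fru
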