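import Pool.Agent.Q265.Fru.Num

set_option autoImplicit false
open Finset

namespace Pool.Agent.Q265.Fru

/-- a number in a gap near the bottom of the `u`-th interval is missing -/
theorem missing {n u s k m : ℕ} (hk : k = 1 ∨ (k = 2 ∧ n % 2 = 1)) (hn : 2 ≤ n)
    (hsu : s < u) (hs : (s + 1) * (s + 2) < 2 * u)
    (hm : m + 2 * ((u - s).choose 2 + (s + 1).choose 2 + 1) = u * (n - 2))
    (hL : 2 * ((u - s).choose 2 + (s + 1).choose 2 + 1) < k * (n - 2))
    (hu : 4 * u + k + 1 ≤ n) (hus : 2 * (u * s) + k * (1 + 2 * u + k) ≤ k * n) :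
    ¬ ∃ E : Finset (Finset (Fin n)), IsG E ∧ fr E = m := by
  rintro ⟨E, hE, hf⟩
  obtain ⟨t, L, h1, h2, h3, h4⟩ := structure_all hE
  rw [Fintype.card_fin] at h1 h4
  rw [hf] at h1 h4
  set L0 := (u - s).choose 2 + (s + 1).choose 2 + 1 with hL0
  have hgap : Gap u L0 := by
    refine ⟨s, hsu, by omega, ?_⟩
    rw [cs]
    have c := ch (s + 1)
    push_cast at c
    have : (((s + 1).choose 2 : ℤ)) + 1 < ((u - s : ℕ) : ℤ) := by
      have e : ((u - s : ℕ) : ℤ) = (u : ℤ) - s := by omega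
      rw [e]
      have hs' : ((s : ℤ) + 1) * (s + 2) < 2 * u := by exact_mod_cast hs
      nlinarith
    have : (s + 1).choose 2 + 1 < u - s := by exact_mod_cast this
    omega
  have htu : t ≠ u := by
    rintro rfl
    have : L = L0 := by omega
    exact h3 (this ▸ hgap)
  have ht1 : u < t + k := by
    by_contra hc
    have : (t + k) * (n - 2) ≤ u * (n - 2) := Nat.mul_le_mul_right _ (by omega)
    rw [add_mul] at this
    omega
  have ht2 : u + k ≤ t := by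
    rcases hk with rfl | ⟨rfl, hodd⟩
    · omega
    · -- parity
      have hh : (n - 2) % 2 = 1 := by omega
      have p1 : (t * (n - 2)) % 2 = t % 2 := by
        rw [Nat.mul_mod, hh, mul_one, Nat.mod_mod]
      have p2 : (u * (n - 2)) % 2 = u % 2 := by
        rw [Nat.mul_mod, hh, mul_one, Nat.mod_mod]
      omega
  have ht3 : t < 3 * u := by
    have hm' : m < u * (n - 2) := by omega
    have : n * t < n * (3 * u) := by
      calc n * t ≤ 3 * m := h1
        _ < 3 * (u * (n - 2)) := by omega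
        _ ≤ n * (3 * u) := by
          have : u * (n - 2) ≤ u * n := Nat.mul_le_mul_left _ (by omega)
          nlinarith
    exact lt_of_mul_lt_mul_left this (Nat.zero_le n)
  have c0 := ch t
  have c1 := ch (u - s)
  have c2 := ch (s + 1)
  have e1 : ((n - 2 : ℕ) : ℤ) = (n : ℤ) - 2 := by omega
  have e2 : ((u - s : ℕ) : ℤ) = (u : ℤ) - s := by omega
  rw [e2] at c1
  push_cast at c2
  have z1 : (m : ℤ) + 2 * L = t * (n - 2) := by rw [← e1]; exact_mod_cast h4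
  have z2 : (m : ℤ) + 2 * (((u - s).choose 2 : ℤ) + ((s + 1).choose 2 : ℤ) + 1) = u * (n - 2) := by
    rw [← e1]; exact_mod_cast hm
  have z3 : (L : ℤ) ≤ (t.choose 2 : ℤ) := by exact_mod_cast h2
  have z4 : (u : ℤ) + k ≤ t := by exact_mod_cast ht2
  have z5 : (t : ℤ) < 3 * u := by exact_mod_cast ht3
  have z6 : 4 * (u : ℤ) + k + 1 ≤ n := by exact_mod_cast hu
  have z7 : 2 * ((u : ℤ) * s) + k * (1 + 2 * u + k) ≤ k * n := by exact_mod_cast hus
  have z8 : 0 ≤ ((t : ℤ) - u - k) * (n - 1 - t - u - k) := by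
    apply mul_nonneg <;> linarith
  have z9 : (0 : ℤ) ≤ s := by positivity
  have z10 : (0 : ℤ) ≤ (s : ℤ) ^ 2 := by positivity
  nlinarith

theorem exists_s (u : ℕ) (hu : 2 ≤ u) : ∃ s, (s + 1) * (s + 2) < 2 * u ∧ 2 * u ≤ (s + 2) * (s + 3) := by
  induction u, hu using Nat.le_induction with
  | base => exact ⟨0, by norm_num, by norm_num⟩
  | succ u hu ih =>
    obtain ⟨s, h1, h2⟩ := ih
    by_cases h : 2 * (u + 1) ≤ (s + 2) * (s + 3)
    · exact ⟨s, by omega, h⟩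
    · refine ⟨s + 1, by
        have : (s + 1 + 1) * (s + 1 + 2) = (s + 2) * (s + 3) := by ring
        omega, ?_⟩
      nlinarith

/-- the lower bound -/
theorem lower {n k : ℕ} {x : ℝ} (hk : k = 1 ∨ (k = 2 ∧ n % 2 = 1)) (hx : 10 ≤ x)
    (hxn : x ^ 4 = k * n) :
    ∃ m : ℕ, (k = 1 → n % 2 = 0 → m % 2 = 0) ∧ 2 * m < n.choose 3 ∧
      (¬ ∃ E : Finset (Finset (Fin n)), IsG E ∧ fr E = m) ∧
      (x ^ 2 + √2 * x - 10) * n ≤ m := by
  have hs2 : √2 ^ 2 = (2 : ℝ) := Real.sq_sqrt (by norm_num)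
  have hs0 : (0 : ℝ) ≤ √2 := Real.sqrt_nonneg 2
  have hs1 : √2 ≤ (3 / 2 : ℝ) := by
    rw [Real.sqrt_le_left (by norm_num)]; norm_num
  have hs14 : (7 / 5 : ℝ) ≤ √2 := by
    rw [Real.le_sqrt' (by norm_num)]; norm_num
  have hk2 : (k : ℝ) ≤ 2 := by
    rcases hk with rfl | ⟨rfl, -⟩ <;> norm_num
  have hk1 : (1 : ℝ) ≤ k := by
    rcases hk with rfl | ⟨rfl, -⟩ <;> norm_num
  have hx2 : 100 ≤ x ^ 2 := by nlinarith
  have hx3 : 10 * x ^ 2 ≤ x ^ 3 := by nlinarith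
  have hx4 : 10 * x ^ 3 ≤ x ^ 4 := by nlinarith
  have hn0 : (0 : ℝ) ≤ n := Nat.cast_nonneg n
  have hnx : x ^ 4 ≤ 2 * n := by rw [hxn]; nlinarith
  have hnx' : (n : ℝ) ≤ x ^ 4 := by rw [hxn]; nlinarith
  set u := ⌊x ^ 2 + √2 * x - 5⌋₊ with hu
  have hub : (u : ℝ) ≤ x ^ 2 + √2 * x - 5 := by
    apply Nat.floor_le
    nlinarith
  have hul : x ^ 2 + √2 * x - 6 < u := by
    have := Nat.lt_floor_add_one (x ^ 2 + √2 * x - 5)
    rw [← hu] at this
    linarith
  have hux : (u : ℝ) ≤ 2 * x ^ 2 := by nlinarith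
  have hu2 : 2 ≤ u := by
    have : (2 : ℝ) ≤ u := by nlinarith
    exact_mod_cast this
  obtain ⟨s, s1, s2⟩ := exists_s u hu2
  have r1 : ((s : ℝ) + 1) * (s + 2) < 2 * u := by exact_mod_cast s1
  have r2 : (2 : ℝ) * u ≤ (s + 2) * (s + 3) := by exact_mod_cast s2
  have hsr : (0 : ℝ) ≤ s := Nat.cast_nonneg s
  have hsu : s < u := by nlinarith
  have hsx : √2 * x < s + 3 := by
    by_contra hc
    push Not at hc
    have : ((s : ℝ) + 3) ^ 2 ≤ (√2 * x) ^ 2 := by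
      apply pow_le_pow_left₀ (by linarith) hc
    rw [mul_pow, hs2] at this
    nlinarith
  have hs2x : (s : ℝ) ≤ 2 * x := by
    by_contra hc
    push Not at hc
    nlinarith
  have husx : (u : ℝ) - s ≤ x ^ 2 - 2 := by linarith
  have hus0 : (1 : ℝ) ≤ (u : ℝ) - s := by
    have : (s : ℝ) + 1 ≤ u := by exact_mod_cast hsu
    linarith
  set L0 := (u - s).choose 2 + (s + 1).choose 2 + 1 with hL0
  have c1 := chR (u - s)
  have c2 := chR (s + 1)
  have e2 : ((u - s : ℕ) : ℝ) = (u : ℝ) - s := by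
    rw [Nat.cast_sub hsu.le]
  rw [e2] at c1
  push_cast at c2
  have hL0r : 2 * (L0 : ℝ) = ((u : ℝ) - s) * (u - s - 1) + (s + 1) * s + 2 := by
    rw [hL0]
    push_cast
    linarith
  have q1 : ((u : ℝ) - s) * (u - s - 1) ≤ (x ^ 2 - 2) * (x ^ 2 - 3) := by
    apply mul_le_mul <;> linarith
  have q2 : ((s : ℝ) + 1) * s ≤ 2 * x ^ 2 + 2 * (√2 * x) - 10 := by nlinarith
  have hn2 : 2 ≤ n := by
    have : (2 : ℝ) ≤ n := by nlinarith
    exact_mod_cast this
  have e1 : ((n - 2 : ℕ) : ℝ) = (n : ℝ) - 2 := by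
    rw [Nat.cast_sub hn2]; norm_num
  have hLk : 2 * L0 < k * (n - 2) := by
    have : (2 * (L0 : ℝ)) < k * ((n : ℝ) - 2) := by
      rw [hL0r]
      have : (k : ℝ) * (n - 2) = x ^ 4 - 2 * k := by rw [hxn]; ring
      rw [this]
      have b1 : (x ^ 2 - 2) * (x ^ 2 - 3) = x ^ 4 - 5 * x ^ 2 + 6 := by ring
      have b2 : √2 * x ≤ 3 / 2 * x := mul_le_mul_of_nonneg_right hs1 (by linarith)
      have b3 : 10 * x ≤ x ^ 2 := by nlinarith
      linarith
    rw [← e1] at this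
    exact_mod_cast this
  have hLu : 2 * L0 ≤ u * (n - 2) := by
    refine hLk.le.trans (Nat.mul_le_mul_right _ ?_)
    have : (k : ℝ) ≤ u := by nlinarith
    exact_mod_cast this
  obtain ⟨m, hm⟩ : ∃ m, m + 2 * L0 = u * (n - 2) := ⟨u * (n - 2) - 2 * L0, by omega⟩
  have hmr : (m : ℝ) + 2 * L0 = u * ((n : ℝ) - 2) := by rw [← e1]; exact_mod_cast hm
  refine ⟨m, ?_, ?_, ?_, ?_⟩
  · intro hk1 hev
    have hh : (n - 2) % 2 = 0 := by omega
    have p1 : (u * (n - 2)) % 2 = 0 := by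
      rw [Nat.mul_mod, hh]; simp
    omega
  · have c3 := ch3 n
    have : 2 * (m : ℝ) < (n.choose 3 : ℝ) := by
      have a1 : (m : ℝ) ≤ u * n := by nlinarith
      have a2 : (u : ℝ) * n ≤ 2 * x ^ 2 * n := by
        apply mul_le_mul_of_nonneg_right hux hn0
      have a4 : 5000 ≤ (n : ℝ) := by nlinarith
      have a5 : 50 * x ^ 2 ≤ n := by nlinarith
      have a6 : 24 * x ^ 2 < ((n : ℝ) - 1) * (n - 2) := by nlinarith
      have a7 : 24 * x ^ 2 * n < ((n : ℝ) - 1) * (n - 2) * n := by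
        apply mul_lt_mul_of_pos_right a6; linarith
      nlinarith
    exact_mod_cast this
  · apply missing (s := s) (u := u) (k := k) hk hn2 hsu s1 hm hLk
    · have : 4 * (u : ℝ) + k + 1 ≤ n := by nlinarith
      exact_mod_cast this
    · have : 2 * ((u : ℝ) * s) + k * (1 + 2 * u + k) ≤ k * n := by
        rw [← hxn]
        have a1 : (u : ℝ) * s ≤ 2 * x ^ 2 * (2 * x) := by
          apply mul_le_mul hux hs2x hsr
          positivity
        have a2 : (k : ℝ) * (1 + 2 * u + k) ≤ 2 * (1 + 2 * (2 * x ^ 2) + 2) := by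
          apply mul_le_mul hk2 (by linarith) (by positivity) (by norm_num)
        nlinarith
      exact_mod_cast this
  · have a1 : 2 * (L0 : ℝ) ≤ k * (n - 2) := by
      have : 2 * (L0 : ℝ) ≤ k * ((n - 2 : ℕ) : ℝ) := by exact_mod_cast hLk.le
      rwa [e1] at this
    have a2 : ((u : ℝ) - k) * (n - 2) ≤ m := by linarith
    have a3 : (x ^ 2 + √2 * x - 8) * ((n : ℝ) - 2) ≤ ((u : ℝ) - k) * (n - 2) := by
      apply mul_le_mul_of_nonneg_right _ (by linarith)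
      linarith
    have a4 : x ^ 2 + √2 * x ≤ n := by nlinarith
    nlinarith

/-- the upper bound -/
theorem upper {n k : ℕ} {x : ℝ} (hk : (k = 1 ∧ n % 2 = 0) ∨ (k = 2 ∧ n % 2 = 1)) (hx : 100 ≤ x)
    (hxn : x ^ 4 = k * n) {m : ℕ} (hm2 : k = 1 → m % 2 = 0) (h2 : 2 * m < n.choose 3)
    (hno : ¬ ∃ E : Finset (Finset (Fin n)), IsG E ∧ fr E = m) :
    (m : ℝ) ≤ (x ^ 2 + √2 * x + 3) * n := by
  have hs0 : (0 : ℝ) ≤ √2 := Real.sqrt_nonneg 2
  have hs1 : √2 ≤ (3 / 2 : ℝ) := by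
    rw [Real.sqrt_le_left (by norm_num)]; norm_num
  have hk2 : (k : ℝ) ≤ 2 := by
    rcases hk with ⟨rfl, -⟩ | ⟨rfl, -⟩ <;> norm_num
  have hk1 : (1 : ℝ) ≤ k := by
    rcases hk with ⟨rfl, -⟩ | ⟨rfl, -⟩ <;> norm_num
  have hx2 : 100 * x ≤ x ^ 2 := by nlinarith
  have hx3 : 100 * x ^ 2 ≤ x ^ 3 := by nlinarith
  have hx4 : 100 * x ^ 3 ≤ x ^ 4 := by nlinarith
  have hn0 : (0 : ℝ) ≤ n := Nat.cast_nonneg n
  have hnx : x ^ 4 ≤ 2 * n := by rw [hxn]; nlinarith
  have hn10 : 10000 ≤ n := by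
    have : (10000 : ℝ) ≤ n := by nlinarith
    exact_mod_cast this
  set u1 := ⌈x ^ 2 + √2 * x + 2⌉₊ with hu1
  have g1 : x ^ 2 + √2 * x + 2 ≤ u1 := Nat.le_ceil _
  have g2 : (u1 : ℝ) < x ^ 2 + √2 * x + 2 + 1 := by
    apply Nat.ceil_lt_add_one
    positivity
  have e1 : ((n - 2 : ℕ) : ℝ) = (n : ℝ) - 2 := by
    rw [Nat.cast_sub (by omega)]; norm_num
  by_contra hc
  push Not at hc
  have hx0 : 0 ≤ x := by linarith
  have h1 : u1 * (n - 2) ≤ m := by
    have : (u1 : ℝ) * ((n : ℝ) - 2) ≤ m := by nlinarith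
    rw [← e1] at this
    exact_mod_cast this
  have hlo : (u1 : ℝ) * (n - 2) ≤ 4 / 1000 * (n : ℝ) ^ 2 := by
    have a1 : (u1 : ℝ) ≤ 4 / 1000 * n := by nlinarith
    have a2 : (u1 : ℝ) * (n - 2) ≤ 4 / 1000 * n * n := by
      apply mul_le_mul a1 (by linarith) (by
        have : (10000 : ℝ) ≤ n := by exact_mod_cast hn10
        linarith) (by positivity)
    nlinarith
  apply hno
  rcases hk with ⟨rfl, hpar⟩ | ⟨rfl, hpar⟩
  · refine coverage (u1 := u1) (fun m => m % 2 = 0) hn10 hlo ?_ ?_ (hm2 rfl) h1 h2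
    · intro m a hma ha
      have := G_id (n := n) (by omega) a ha
      have hh : (n - 2) % 2 = 0 := by omega
      have p1 : (a.choose 2 * (n - 2)) % 2 = 0 := by
        rw [Nat.mul_mod, hh]; simp
      change m % 2 = 0
      have hma' : (G n a + m) % 2 = 0 := hma
      omega
    · intro w m hm g3 g4
      refine win1 hx0 (by omega) (by omega) ?_ g1 hm g3 g4
      rw [e1, hxn]; push_cast; linarith
  · refine coverage (u1 := u1) (fun _ => True) hn10 hlo (fun _ _ _ _ => trivial) ?_ trivial h1 h2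
    intro w m _ g3 g4
    refine win2 hx0 (by omega) (by omega) ?_ g1 g3 g4
    push_cast
    rw [e1, hxn]
    push_cast
    linarith

end Pool.Agent.Q265.Fru
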