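import Pool.Agent.Q265.Fru.Basic

set_option autoImplicit false
open Finset

namespace Pool.Agent.Q265.Fru

theorem ch (n : ℕ) : (2 * (n.choose 2 : ℤ)) = n * (n - 1) := by
  induction n with
  | zero => simp
  | succ n ih =>
    rw [Nat.choose_succ_succ' n 1, Nat.choose_one_right]
    push_cast
    linarith

variable {V : Type*} [Fintype V] [DecidableEq V]

/-- edges at `v` -/
def star (E : Finset (Finset V)) (v : V) : Finset (Finset V) := E.filter (v ∈ ·)

/-- edges not at `v` -/
def away (E : Finset (Finset V)) (v : V) : Finset (Finset V) := E.filter (v ∉ ·)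

omit [Fintype V] in
theorem union_card {e1 e2 : Finset V} (h1 : e1.card = 2) (h2 : e2.card = 2) (hne : e1 ≠ e2)
    {v : V} (hv1 : v ∈ e1) (hv2 : v ∈ e2) : (e1 ∪ e2).card = 3 := by
  have h := card_union_add_card_inter e1 e2
  have h3 : 1 ≤ (e1 ∩ e2).card := card_pos.2 ⟨v, mem_inter.2 ⟨hv1, hv2⟩⟩
  have h4 : (e1 ∩ e2).card < 2 := by
    rw [← h1]
    apply card_lt_card
    refine ⟨inter_subset_left, fun hs => hne ?_⟩
    have : e1 ⊆ e2 := fun x hx => (mem_inter.1 (hs hx)).2
    exact eq_of_subset_of_card_le this (by omega)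
  omega

theorem two_of {E : Finset (Finset V)} (hE : IsG E) {T : Finset V} (hT : T.card = 3)
    {e1 e2 : Finset V} (h1 : e1 ∈ E) (h2 : e2 ∈ E) (hne : e1 ≠ e2) (s1 : e1 ⊆ T) (s2 : e2 ⊆ T) :
    T = e1 ∪ e2 ∧ ∃ v, v ∈ e1 ∧ v ∈ e2 := by
  have h := card_union_add_card_inter e1 e2
  have h3 : (e1 ∪ e2).card ≤ 3 := hT ▸ card_le_card (union_subset s1 s2)
  have h4 := hE e1 h1
  have h5 := hE e2 h2
  have h6 : 0 < (e1 ∩ e2).card := by omega
  obtain ⟨v, hv⟩ := card_pos.1 h6
  have hv' := mem_inter.1 hv
  have h7 := union_card h4 h5 hne hv'.1 hv'.2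
  exact ⟨(eq_of_subset_of_card_le (union_subset s1 s2) (by omega)).symm, v, hv'⟩

theorem mem_LL {E : Finset (Finset V)} {T : Finset V} :
    T ∈ LL E ↔ T.card = 3 ∧ 2 ≤ (inn E T).card := by
  rw [LL, mem_filter, mem_powersetCard]
  simp

theorem star_low {E : Finset (Finset V)} (hE : IsG E) (v : V) :
    ((star E v).card).choose 2 ≤ (LL E).card := by
  have hst : ∀ e ∈ star E v, e ∈ E ∧ v ∈ e := fun e he => mem_filter.1 he
  rw [← card_powersetCard]
  have key : ∀ P ∈ (star E v).powersetCard 2, (P.biUnion id).card = 3 ∧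
      P = (star E v).filter (· ⊆ P.biUnion id) := by
    intro P hP
    rw [mem_powersetCard] at hP
    obtain ⟨e1, e2, hne, rfl⟩ := card_eq_two.1 hP.2
    have m1 := hst e1 (hP.1 (by simp))
    have m2 := hst e2 (hP.1 (by simp))
    have hu : ({e1, e2} : Finset (Finset V)).biUnion id = e1 ∪ e2 := by
      ext x; simp
    have hc := union_card (hE _ m1.1) (hE _ m2.1) hne m1.2 m2.2
    rw [hu]
    refine ⟨hc, ?_⟩
    apply eq_of_subset_of_card_le
    · intro e he
      rw [mem_filter]
      refine ⟨hP.1 he, ?_⟩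
      rcases mem_insert.1 he with h | h
      · rw [h]; exact subset_union_left
      · rw [mem_singleton.1 h]; exact subset_union_right
    · rw [hP.2]
      have : (star E v).filter (· ⊆ e1 ∪ e2) ⊆ ((e1 ∪ e2).erase v).image (fun x => {v, x}) := by
        intro e he
        rw [mem_filter] at he
        have m := hst e he.1
        have h1 : (e.erase v).card = 1 := by rw [card_erase_of_mem m.2, hE _ m.1]
        obtain ⟨x, hx⟩ := card_eq_one.1 h1
        rw [mem_image]
        refine ⟨x, ?_, ?_⟩
        · rw [mem_erase]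
          have : x ∈ e.erase v := by rw [hx]; simp
          rw [mem_erase] at this
          exact ⟨this.1, he.2 this.2⟩
        · rw [← insert_erase m.2, hx]
      refine (card_le_card this).trans (card_image_le.trans ?_)
      rw [card_erase_of_mem (mem_union_left _ m1.2), hc]
  apply card_le_card_of_injOn (fun P => P.biUnion id)
  · intro P hP
    have hP' : P ∈ (star E v).powersetCard 2 := hP
    have h1 := key P hP'
    rw [mem_coe, mem_LL]
    refine ⟨h1.1, ?_⟩
    rw [mem_powersetCard] at hP'
    rw [← hP'.2]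
    apply card_le_card
    intro e he
    rw [inn, mem_filter]
    exact ⟨(hst e (hP'.1 he)).1, by
      intro x hx
      rw [mem_biUnion]
      exact ⟨e, he, hx⟩⟩
  · intro P hP Q hQ hPQ
    have h1 := (key P hP).2
    have h2 := (key Q hQ).2
    simp only at hPQ
    rw [h1, h2, hPQ]

theorem exists_two {E : Finset (Finset V)} (hE : IsG E) {T : Finset V} (hT : T ∈ LL E) :
    ∃ e1 ∈ E, ∃ e2 ∈ E, e1 ≠ e2 ∧ T = e1 ∪ e2 ∧ ∃ v, v ∈ e1 ∧ v ∈ e2 := by
  rw [mem_LL] at hT
  obtain ⟨e1, h1, e2, h2, hne⟩ := one_lt_card.1 hT.2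
  rw [inn, mem_filter] at h1 h2
  obtain ⟨h3, h4⟩ := two_of hE hT.1 h1.1 h2.1 hne h1.2 h2.2
  exact ⟨e1, h1.1, e2, h2.1, hne, h3, h4⟩

theorem star_up {E : Finset (Finset V)} (hE : IsG E) (v : V) :
    (LL E).card ≤ ((star E v).card).choose 2 + (away E v).card + ((away E v).card).choose 2 := by
  have hsub : LL E ⊆ (((star E v).powersetCard 2).image fun P => P.biUnion id) ∪
      ((away E v).image fun e => insert v e) ∪
      (((away E v).powersetCard 2).image fun P => P.biUnion id) := by
    intro T hT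
    obtain ⟨e1, h1, e2, h2, hne, hu, -⟩ := exists_two hE hT
    have hT3 := (mem_LL.1 hT).1
    have hbu : ({e1, e2} : Finset (Finset V)).biUnion id = T := by
      rw [hu]; ext x; simp
    by_cases hv : v ∈ T
    · by_cases hall : v ∈ e1 ∧ v ∈ e2
      · apply mem_union_left
        apply mem_union_left
        rw [mem_image]
        refine ⟨{e1, e2}, ?_, hbu⟩
        rw [mem_powersetCard]
        refine ⟨?_, card_pair hne⟩
        intro e he
        rw [star, mem_filter]
        rcases mem_insert.1 he with h | h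
        · rw [h]; exact ⟨h1, hall.1⟩
        · rw [mem_singleton.1 h]; exact ⟨h2, hall.2⟩
      · apply mem_union_left
        apply mem_union_right
        have : ∃ e ∈ E, v ∉ e ∧ e ⊆ T := by
          by_cases h : v ∈ e1
          · refine ⟨e2, h2, fun h' => hall ⟨h, h'⟩, ?_⟩
            rw [hu]; exact subset_union_right
          · refine ⟨e1, h1, h, ?_⟩
            rw [hu]; exact subset_union_left
        obtain ⟨e, he, hve, heT⟩ := this
        rw [mem_image]
        refine ⟨e, mem_filter.2 ⟨he, hve⟩, ?_⟩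
        apply eq_of_subset_of_card_le (insert_subset hv heT)
        rw [card_insert_of_notMem hve, hE e he, hT3]
    · apply mem_union_right
      rw [mem_image]
      refine ⟨{e1, e2}, ?_, hbu⟩
      rw [mem_powersetCard]
      refine ⟨?_, card_pair hne⟩
      intro e he
      rw [away, mem_filter]
      rcases mem_insert.1 he with h | h
      · rw [h]; exact ⟨h1, fun h' => hv (by rw [hu]; exact mem_union_left _ h')⟩
      · rw [mem_singleton.1 h]; exact ⟨h2, fun h' => hv (by rw [hu]; exact mem_union_right _ h')⟩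
  refine (card_le_card hsub).trans ((card_union_le _ _).trans ?_)
  have a1 : (((star E v).powersetCard 2).image fun P => P.biUnion id).card ≤
      ((star E v).card).choose 2 := by
    rw [← card_powersetCard]; exact card_image_le
  have a2 : ((away E v).image fun e => insert v e).card ≤ (away E v).card := card_image_le
  have a3 : (((away E v).powersetCard 2).image fun P => P.biUnion id).card ≤
      ((away E v).card).choose 2 := by
    rw [← card_powersetCard]; exact card_image_le
  have a4 := card_union_le (((star E v).powersetCard 2).image fun P => P.biUnion id)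
    ((away E v).image fun e => insert v e)
  omega

theorem sum_deg {E : Finset (Finset V)} (hE : IsG E) : ∑ v : V, (star E v).card = 2 * E.card := by
  simp only [star]
  have h := sum_card_bipartiteAbove_eq_sum_card_bipartiteBelow (s := (univ : Finset V))
    (t := E) (fun (v : V) (e : Finset V) => v ∈ e)
  simp only [bipartiteAbove, bipartiteBelow] at h
  rw [h]
  have : ∀ e ∈ E, ((univ : Finset V).filter fun v => v ∈ e).card = 2 := by
    intro e he
    rw [← hE e he]
    congr 1
    ext x; simp
  rw [sum_congr rfl this]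
  simp [mul_comm]

theorem LL_le_sum {E : Finset (Finset V)} (hE : IsG E) :
    (LL E).card ≤ ∑ v : V, ((star E v).card).choose 2 := by
  have hsub : LL E ⊆ (univ : Finset V).biUnion fun v =>
      (((star E v).powersetCard 2).image fun P => P.biUnion id) := by
    intro T hT
    obtain ⟨e1, h1, e2, h2, hne, hu, v, hv1, hv2⟩ := exists_two hE hT
    rw [mem_biUnion]
    refine ⟨v, mem_univ _, ?_⟩
    rw [mem_image]
    refine ⟨{e1, e2}, ?_, by rw [hu]; ext x; simp⟩
    rw [mem_powersetCard]
    refine ⟨?_, card_pair hne⟩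
    intro e he
    rw [star, mem_filter]
    rcases mem_insert.1 he with h | h
    · rw [h]; exact ⟨h1, hv1⟩
    · rw [mem_singleton.1 h]; exact ⟨h2, hv2⟩
  refine (card_le_card hsub).trans (card_biUnion_le.trans (sum_le_sum fun v _ => ?_))
  rw [← card_powersetCard]
  exact card_image_le

theorem LL_le_deg {E : Finset (Finset V)} (hE : IsG E) {D : ℕ} (hD : ∀ v, (star E v).card ≤ D) :
    ((LL E).card : ℤ) ≤ E.card * (D - 1) := by
  have h1 : (2 * (LL E).card : ℤ) ≤ ∑ v : V, (2 * (((star E v).card).choose 2 : ℤ)) := by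
    rw [← mul_sum]
    have := LL_le_sum hE
    have h2 : ((LL E).card : ℤ) ≤ ∑ v : V, (((star E v).card).choose 2 : ℤ) := by exact_mod_cast this
    linarith
  have h2 : ∑ v : V, (2 * (((star E v).card).choose 2 : ℤ)) ≤
      ∑ v : V, ((star E v).card : ℤ) * (D - 1) := by
    refine sum_le_sum fun v _ => ?_
    rw [ch]
    have : ((star E v).card : ℤ) ≤ D := by exact_mod_cast hD v
    have h0 : (0 : ℤ) ≤ (star E v).card := by positivity
    nlinarith
  rw [← sum_mul] at h2
  have h3 : (∑ v : V, ((star E v).card : ℤ)) = 2 * E.card := by exact_mod_cast sum_deg hE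
  rw [h3] at h2
  linarith

theorem star_add_away (E : Finset (Finset V)) (v : V) :
    (star E v).card + (away E v).card = E.card := by
  simp only [star, away]
  exact card_filter_add_card_filter_not (fun e => v ∈ e)

/-- The gaps. -/
def Gap (t L : ℕ) : Prop :=
  ∃ s, s < t ∧ (t - s).choose 2 + (s + 1).choose 2 < L ∧ L < (t - s + 1).choose 2

theorem num1 {t s D : ℤ} (hs : 0 ≤ s) (hD : D ≤ t - s) (hD1 : s + 1 ≤ D) :
    D * (D - 1) + (t - D + 1) * (t - D) ≤ (t - s) * (t - s - 1) + (s + 1) * s := by
  have : 0 ≤ 2 * ((t - D) - s) * (t - (s + (t - D)) - 1) := by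
    apply mul_nonneg <;> linarith
  nlinarith

theorem num2 {t s : ℤ} (hs : 1 ≤ s) (hgap : s ^ 2 + 3 * s + 4 ≤ 2 * t) :
    2 * t * (s - 1) ≤ (t - s) * (t - s - 1) + (s + 1) * s := by
  have h1 : 4 * s - 1 ≤ t := by nlinarith [sq_nonneg (2 * s - 5)]
  nlinarith

theorem not_gap {E : Finset (Finset V)} (hE : IsG E) : ¬ Gap E.card (LL E).card := by
  rintro ⟨s, hst, h1, h2⟩
  have hne : E.Nonempty := card_pos.1 (by omega)
  obtain ⟨e, he⟩ := hne
  have hene : e.Nonempty := card_pos.1 (by rw [hE e he]; norm_num)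
  obtain ⟨x0, hx0⟩ := hene
  obtain ⟨v, -, hv⟩ := exists_max_image (univ : Finset V) (fun v => (star E v).card) ⟨x0, mem_univ _⟩
  have hD1 : 1 ≤ (star E v).card := by
    refine le_trans ?_ (hv x0 (mem_univ _))
    exact card_pos.2 ⟨e, mem_filter.2 ⟨he, hx0⟩⟩
  have hlow := star_low hE v
  have hup := star_up hE v
  have hdeg := LL_le_deg hE (D := (star E v).card) (fun w => hv w (mem_univ _))
  have hsum := star_add_away E v
  generalize (star E v).card = D at *
  generalize (away E v).card = u at *
  generalize (LL E).card = L at *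
  generalize E.card = t at *
  have hDts : D ≤ t - s := by
    by_contra hc
    have : (t - s + 1).choose 2 ≤ D.choose 2 := Nat.choose_le_choose 2 (by omega)
    omega
  obtain ⟨m, rfl⟩ : ∃ m, t = s + m := ⟨t - s, by omega⟩
  have e1 : s + m - s = m := by omega
  rw [e1] at h1 h2 hDts
  have c1 := ch m
  have c2 := ch (s + 1)
  have c3 := ch (m + 1)
  have c4 := ch D
  have c5 := ch u
  push_cast at c1 c2 c3 c4 c5 hdeg
  have z1 : ((m.choose 2 : ℤ)) + ((s + 1).choose 2 : ℤ) + 1 ≤ L := by exact_mod_cast h1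
  have z2 : (L : ℤ) + 1 ≤ ((m + 1).choose 2 : ℤ) := by exact_mod_cast h2
  have z3 : (L : ℤ) ≤ (D.choose 2 : ℤ) + u + (u.choose 2 : ℤ) := by exact_mod_cast hup
  have z4 : (D : ℤ) + u = s + m := by exact_mod_cast hsum
  have z5 : (D : ℤ) ≤ m := by exact_mod_cast hDts
  have z6 : (1 : ℤ) ≤ D := by exact_mod_cast hD1
  have z7 : (0 : ℤ) ≤ s := by positivity
  rcases Nat.lt_or_ge s D with hsD | hsD
  · have z8 : (s : ℤ) + 1 ≤ D := by exact_mod_cast hsD
    have := num1 (t := (s : ℤ) + m) (s := s) (D := D) z7 (by linarith) z8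
    have hu : (u : ℤ) = s + m - D := by linarith
    rw [hu] at z3 c5
    nlinarith
  · have z8 : (D : ℤ) ≤ s := by exact_mod_cast hsD
    have hgap : (s : ℤ) ^ 2 + 3 * s + 4 ≤ 2 * (s + m) := by nlinarith
    have := num2 (t := (s : ℤ) + m) (s := s) (by linarith) hgap
    have z9 : (0 : ℤ) ≤ (s + m : ℤ) := by positivity
    have z10 : ((s : ℤ) + m) * (D - 1) ≤ (s + m) * (s - 1) := by
      apply mul_le_mul_of_nonneg_left (by linarith) z9
    nlinarith

end Pool.Agent.Q265.Fru
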