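import Pool.Agent.Q265.Fru.Cov

set_option autoImplicit false
open Finset

namespace Pool.Agent.Q265.Fru

/-- the number of frustrated triples of a clique on `a` of `n` vertices -/
def G (n a : ℕ) : ℕ := ∑ i ∈ range a, i * (n - 1 - i)

theorem G_succ (n a : ℕ) : G n (a + 1) = G n a + a * (n - 1 - a) := by
  unfold G
  rw [sum_range_succ]

theorem G_id {n : ℕ} (hn : 2 ≤ n) (a : ℕ) (ha : a ≤ n) :
    G n a + 2 * a.choose 3 = a.choose 2 * (n - 2) := by
  induction a with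
  | zero => simp [G]
  | succ a ih =>
    have h := ih (by omega)
    rw [G_succ, Nat.choose_succ_succ' a 2, cs]
    have c := ch a
    have h' : (G n a : ℤ) + 2 * (a.choose 3 : ℤ) = (a.choose 2 : ℤ) * ((n : ℤ) - 2) := by
      have : ((n - 2 : ℕ) : ℤ) = (n : ℤ) - 2 := by omega
      rw [← this]
      exact_mod_cast h
    have e1 : ((n - 1 - a : ℕ) : ℤ) = (n : ℤ) - 1 - a := by omega
    have e2 : ((n - 2 : ℕ) : ℤ) = (n : ℤ) - 2 := by omega
    have : (((G n a + a * (n - 1 - a) + 2 * (a.choose 2 + a.choose 3) : ℕ)) : ℤ) =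
        (((a + a.choose 2) * (n - 2) : ℕ) : ℤ) := by
      push_cast
      rw [e1, e2]
      linarith
    exact_mod_cast this

theorem ch3 (n : ℕ) : (6 * (n.choose 3 : ℝ)) = n * (n - 1) * (n - 2) := by
  induction n with
  | zero => simp
  | succ n ih =>
    rw [Nat.choose_succ_succ' n 2]
    have c : (2 * (n.choose 2 : ℝ)) = n * (n - 1) := by exact_mod_cast ch n
    push_cast
    linarith

theorem chR (n : ℕ) : (2 * (n.choose 2 : ℝ)) = n * (n - 1) := by exact_mod_cast ch n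

theorem nogap_real {x : ℝ} (hx : 0 ≤ x) {u K L : ℕ} (hK : (K : ℝ) ≤ x ^ 4)
    (hu : x ^ 2 + √2 * x + 2 ≤ u) (hL : 2 * L ≤ K) : L ≤ u.choose 2 ∧ ¬ Gap u L := by
  have hs2 : √2 ^ 2 = (2 : ℝ) := Real.sq_sqrt (by norm_num)
  have hs0 : (0 : ℝ) ≤ √2 := Real.sqrt_nonneg 2
  have hLr : 2 * (L : ℝ) ≤ x ^ 4 := le_trans (by exact_mod_cast hL) hK
  have hsx : 0 ≤ √2 * x := mul_nonneg hs0 hx
  constructor
  · have h1 : x ^ 2 + 1 ≤ (u : ℝ) := by linarith
    have h2 : x ^ 4 ≤ 2 * (u.choose 2 : ℝ) := by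
      rw [chR]
      nlinarith [sq_nonneg x]
    have : (L : ℝ) ≤ (u.choose 2 : ℝ) := by linarith
    exact_mod_cast this
  · rintro ⟨s, hsu, h1, h2⟩
    obtain ⟨v, rfl⟩ : ∃ v, u = s + v := ⟨u - s, by omega⟩
    have e : s + v - s = v := by omega
    rw [e] at h1 h2
    rw [cs] at h2
    have c1 := chR v
    have c2 := chR (s + 1)
    push_cast at c2 hu
    have z1 : (v.choose 2 : ℝ) + ((s + 1).choose 2 : ℝ) + 1 ≤ L := by exact_mod_cast h1
    have z2 : (L : ℝ) + 1 ≤ v + (v.choose 2 : ℝ) := by exact_mod_cast h2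
    have hs : (0 : ℝ) ≤ s := Nat.cast_nonneg s
    have hg : ((s : ℝ) + 1) * s + 4 ≤ 2 * v := by nlinarith
    set y : ℝ := s + v - x ^ 2 with hy
    have hyl : √2 * x + 2 ≤ y := by linarith
    have hsy : (s : ℝ) + 1 ≤ y := by
      by_contra hc
      push Not at hc
      have a1 : ((s : ℝ) + 1) ^ 2 < 2 * x ^ 2 + 2 * y := by nlinarith
      have a2 : y ^ 2 < 2 * x ^ 2 + 2 * y := by nlinarith
      have a3 : (√2 * x) * (√2 * x + 2) ≤ (y - 2) * y := by
        apply mul_le_mul <;> linarith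
      nlinarith
    have hv : x ^ 2 + 1 ≤ v := by linarith
    have : x ^ 4 ≤ 2 * (v.choose 2 : ℝ) := by
      rw [c1]
      nlinarith [sq_nonneg x]
    have : (0 : ℝ) ≤ ((s + 1).choose 2 : ℝ) := Nat.cast_nonneg _
    linarith

theorem ceil_div {h m : ℕ} (hh : 0 < h) : ∃ u, m ≤ u * h ∧ u * h < m + h := by
  refine ⟨(m + h - 1) / h, ?_, ?_⟩
  · have h1 := Nat.div_add_mod (m + h - 1) h
    have h2 := Nat.mod_lt (m + h - 1) hh
    have : h * ((m + h - 1) / h) = (m + h - 1) / h * h := mul_comm _ _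
    omega
  · have h1 := Nat.div_add_mod (m + h - 1) h
    have : h * ((m + h - 1) / h) = (m + h - 1) / h * h := mul_comm _ _
    omega

theorem win1 {x : ℝ} (hx : 0 ≤ x) {h u1 : ℕ} (hh : 0 < h) (he : h % 2 = 0) (hK : (h : ℝ) ≤ x ^ 4)
    (hu : x ^ 2 + √2 * x + 2 ≤ u1) {w m : ℕ} (hm : m % 2 = 0) (h1 : u1 * h ≤ m)
    (h2 : m ≤ (w / 2 - 1) * h) :
    ∃ u L, 2 * u ≤ w ∧ L ≤ u.choose 2 ∧ ¬ Gap u L ∧ m + 2 * L = u * h := by
  obtain ⟨u, k1, k2⟩ := ceil_div (m := m) hh
  have hu1 : u1 ≤ u := by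
    by_contra hc
    have : (u + 1) * h ≤ u1 * h := Nat.mul_le_mul_right h (by omega)
    rw [add_mul] at this
    omega
  have huw : u ≤ w / 2 - 1 := by
    by_contra hc
    have : (w / 2 - 1 + 1) * h ≤ u * h := Nat.mul_le_mul_right h (by omega)
    rw [add_mul] at this
    omega
  have hpar : (u * h) % 2 = 0 := by
    rw [Nat.mul_mod, he]; simp
  have hur : x ^ 2 + √2 * x + 2 ≤ (u : ℝ) := hu.trans (by exact_mod_cast hu1)
  obtain ⟨g1, g2⟩ := nogap_real (L := (u * h - m) / 2) hx hK hur (by omega)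
  exact ⟨u, (u * h - m) / 2, by omega, g1, g2, by omega⟩

theorem win2 {x : ℝ} (hx : 0 ≤ x) {h u1 : ℕ} (hh : 0 < h) (he : h % 2 = 1)
    (hK : ((2 * h : ℕ) : ℝ) ≤ x ^ 4)
    (hu : x ^ 2 + √2 * x + 2 ≤ u1) {w m : ℕ} (h1 : u1 * h ≤ m)
    (h2 : m ≤ (w / 2 - 1) * h) :
    ∃ u L, 2 * u ≤ w ∧ L ≤ u.choose 2 ∧ ¬ Gap u L ∧ m + 2 * L = u * h := by
  obtain ⟨u, k1, k2⟩ := ceil_div (m := m) hh
  have hu1 : u1 ≤ u := by
    by_contra hc
    have : (u + 1) * h ≤ u1 * h := Nat.mul_le_mul_right h (by omega)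
    rw [add_mul] at this
    omega
  have huw : u ≤ w / 2 - 1 := by
    by_contra hc
    have : (w / 2 - 1 + 1) * h ≤ u * h := Nat.mul_le_mul_right h (by omega)
    rw [add_mul] at this
    omega
  have hur : x ^ 2 + √2 * x + 2 ≤ (u : ℝ) := hu.trans (by exact_mod_cast hu1)
  by_cases hpar : (u * h - m) % 2 = 0
  · obtain ⟨g1, g2⟩ := nogap_real (L := (u * h - m) / 2) hx hK hur (by omega)
    rcases Nat.eq_zero_or_pos (w / 2) with h0 | h0
    · have hu0 : u = 0 := by omega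
      exact ⟨u, (u * h - m) / 2, by omega, g1, g2, by omega⟩
    · exact ⟨u, (u * h - m) / 2, by omega, g1, g2, by omega⟩
  · have e1 : (u + 1) * h = u * h + h := by ring
    have hur' : x ^ 2 + √2 * x + 2 ≤ ((u + 1 : ℕ) : ℝ) := by push_cast; linarith
    obtain ⟨g1, g2⟩ := nogap_real (L := ((u + 1) * h - m) / 2) hx hK hur' (by omega)
    refine ⟨u + 1, ((u + 1) * h - m) / 2, ?_, g1, g2, by omega⟩
    rcases Nat.eq_zero_or_pos (w / 2 - 1) with h0 | h0
    · exfalso
      rw [h0] at h2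
      have hm0 : m = 0 := by omega
      have hu0 : u = 0 := by omega
      rw [hu0] at hur
      push_cast at hur
      have : 0 ≤ √2 * x := mul_nonneg (Real.sqrt_nonneg 2) hx
      nlinarith [sq_nonneg x]
    · omega

theorem chain (g : ℕ → ℕ) {m : ℕ} (h0 : g 0 ≤ m) (N : ℕ) :
    ∃ a, a ≤ N ∧ g a ≤ m ∧ (a = N ∨ m < g (a + 1)) := by
  induction N with
  | zero => exact ⟨0, le_refl _, h0, Or.inl rfl⟩
  | succ N ih =>
    obtain ⟨a, h1, h2, h3⟩ := ih
    rcases h3 with rfl | h3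
    · by_cases h : g (a + 1) ≤ m
      · exact ⟨a + 1, le_refl _, h, Or.inl rfl⟩
      · exact ⟨a, by omega, h2, Or.inr (by omega)⟩
    · exact ⟨a, by omega, h2, Or.inr h3⟩

theorem ineq1 {n a w lo : ℝ} (hn : 10000 ≤ n) (ha0 : 0 ≤ a) (ha : 100 * a ≤ 49 * n)
    (hw : n - a - 3 ≤ 2 * w) (hlo : lo ≤ 4 / 1000 * n ^ 2) :
    a * (n - 1 - a) + lo ≤ w * (n - 2) := by
  have h1 : (n - a - 3) * (n - 2) ≤ 2 * w * (n - 2) := by
    apply mul_le_mul_of_nonneg_right hw; linarith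
  have h2 : 0 ≤ (n - a - 51 / 100 * n) * (n / 2 - a - 1 / 100 * n) := by
    apply mul_nonneg <;> linarith
  nlinarith

theorem ineq2 {n a b w lo : ℝ} (hn : 10000 ≤ n) (ha : 100 * a ≤ 49 * n)
    (hb0 : 0 ≤ b) (hb : 100 * b ≤ 15 * n)
    (hw : n - a - b - 3 ≤ 2 * w) (hlo : lo ≤ 4 / 1000 * n ^ 2) :
    b * (n - 1 - b) + lo ≤ w * (n - 2) := by
  have h1 : (51 / 100 * n - b - 3) * (n - 2) ≤ 2 * w * (n - 2) := by
    apply mul_le_mul_of_nonneg_right _ (by linarith)
    linarith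
  have h2 : 0 ≤ (15 / 100 * n - b) * (135 / 100 * n - b) := by
    apply mul_nonneg <;> linarith
  nlinarith

theorem ineq3 {n a b : ℝ} (hn : 10000 ≤ n) (ha : 100 * a ≤ 49 * n) (ha' : 49 * n ≤ 100 * a + 100)
    (hb : 100 * b ≤ 15 * n) (hb' : 15 * n ≤ 100 * b + 100) :
    n ^ 3 ≤ 2 * (a * (a - 1) * (3 * (n - 2) - 2 * (a - 2)) +
      b * (b - 1) * (3 * (n - 2) - 2 * (b - 2))) := by
  have h1 : 23 / 100 * n ^ 2 ≤ a * (a - 1) := by nlinarith
  have h2 : 19 / 1000 * n ^ 2 ≤ b * (b - 1) := by nlinarith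
  have h3 : 2 * n ≤ 3 * (n - 2) - 2 * (a - 2) := by linarith
  have h4 : 26 / 10 * n ≤ 3 * (n - 2) - 2 * (b - 2) := by linarith
  have h5 : 23 / 100 * n ^ 2 * (2 * n) ≤ a * (a - 1) * (3 * (n - 2) - 2 * (a - 2)) := by
    apply mul_le_mul h1 h3 (by linarith)
    nlinarith
  have h6 : 19 / 1000 * n ^ 2 * (26 / 10 * n) ≤ b * (b - 1) * (3 * (n - 2) - 2 * (b - 2)) := by
    apply mul_le_mul h2 h4 (by linarith)
    nlinarith
  have h7 : 0 ≤ n ^ 3 := by positivity
  nlinarith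

/-- all numbers between `lo` and half of all triples (with the right parity) are attained -/
theorem coverage {n u1 : ℕ} (par : ℕ → Prop) (hn : 10000 ≤ n)
    (hlo : (u1 : ℝ) * (n - 2) ≤ 4 / 1000 * (n : ℝ) ^ 2)
    (hpar : ∀ m a, par (G n a + m) → a ≤ n → par m)
    (hwin : ∀ w m, par m → u1 * (n - 2) ≤ m → m ≤ (w / 2 - 1) * (n - 2) →
      ∃ u L, 2 * u ≤ w ∧ L ≤ u.choose 2 ∧ ¬ Gap u L ∧ m + 2 * L = u * (n - 2))
    {m : ℕ} (hm : par m) (h1 : u1 * (n - 2) ≤ m) (h2 : 2 * m < n.choose 3) :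
    ∃ E : Finset (Finset (Fin n)), IsG E ∧ fr E = m := by
  have hnR : (10000 : ℝ) ≤ n := by exact_mod_cast hn
  have e2 : ((n - 2 : ℕ) : ℝ) = (n : ℝ) - 2 := by
    rw [Nat.cast_sub (by omega)]; norm_num
  have G0 : G n 0 = 0 := by simp [G]
  -- general finishing step
  have fin : ∀ a b m', a ≤ n → b ≤ n → a + b ≤ n → m = G n a + (G n b + m') →
      u1 * (n - 2) ≤ m' → m' ≤ ((n - a - b) / 2 - 1) * (n - 2) →
      ∃ E : Finset (Finset (Fin n)), IsG E ∧ fr E = m := by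
    intro a b m' ha hb hab hmm g1 g2
    have p1 : par (G n b + m') := hpar _ a (hmm ▸ hm) ha
    have p2 : par m' := hpar _ b p1 hb
    obtain ⟨u, L, k1, k2, k3, k4⟩ := hwin _ _ p2 g1 g2
    obtain ⟨E, hE, hf⟩ := cover (V := Fin n) (α := a) (β := b) (w := n - a - b) (u := u) (L := L)
      (by rw [Fintype.card_fin]; omega) k1 k2 k3
    refine ⟨E, hE, ?_⟩
    rw [Fintype.card_fin, add_mul, add_mul, ← G_id (by omega) a ha, ← G_id (by omega) b hb,
      ← k4] at hf
    omega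
  obtain ⟨a, ha1, ha2, ha3⟩ := chain (fun a => G n a + u1 * (n - 2)) (m := m)
    (by simp only [G0]; omega) (49 * n / 100)
  have han : 100 * a ≤ 49 * n := by omega
  by_cases haN : a = 49 * n / 100
  · obtain ⟨b, hb1, hb2, hb3⟩ := chain (fun b => G n a + (G n b + u1 * (n - 2))) (m := m)
      (by simp only [G0]; omega) (15 * n / 100)
    have hbn : 100 * b ≤ 15 * n := by omega
    by_cases hbN : b = 15 * n / 100
    · exfalso
      have i1 := G_id (n := n) (by omega) a (by omega)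
      have i2 := G_id (n := n) (by omega) b (by omega)
      have j1 : (G n a : ℝ) + 2 * (a.choose 3 : ℝ) = (a.choose 2 : ℝ) * ((n : ℝ) - 2) := by
        rw [← e2]; exact_mod_cast i1
      have j2 : (G n b : ℝ) + 2 * (b.choose 3 : ℝ) = (b.choose 2 : ℝ) * ((n : ℝ) - 2) := by
        rw [← e2]; exact_mod_cast i2
      have c1 := chR a
      have c2 := chR b
      have c3 := ch3 a
      have c4 := ch3 b
      have c5 := ch3 n
      have k1 : (100 * a : ℝ) ≤ 49 * n := by exact_mod_cast han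
      have k2 : (49 * n : ℝ) ≤ 100 * a + 100 := by
        have : 49 * n ≤ 100 * a + 100 := by omega
        exact_mod_cast this
      have k3 : (100 * b : ℝ) ≤ 15 * n := by exact_mod_cast hbn
      have k4 : (15 * n : ℝ) ≤ 100 * b + 100 := by
        have : 15 * n ≤ 100 * b + 100 := by omega
        exact_mod_cast this
      have key := ineq3 hnR k1 k2 k3 k4
      have l1 : 6 * (G n a : ℝ) = a * (a - 1) * (3 * (n - 2) - 2 * (a - 2)) := by
        linear_combination 6 * j1 + 3 * ((n : ℝ) - 2) * c1 - 2 * c3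
      have l2 : 6 * (G n b : ℝ) = b * (b - 1) * (3 * (n - 2) - 2 * (b - 2)) := by
        linear_combination 6 * j2 + 3 * ((n : ℝ) - 2) * c2 - 2 * c4
      rw [← l1, ← l2] at key
      have l3 : 2 * (m : ℝ) < (n.choose 3 : ℝ) := by exact_mod_cast h2
      have l4 : (G n a : ℝ) + G n b ≤ m := by
        have : G n a + G n b ≤ m := by
          omega
        exact_mod_cast this
      have l5 : 6 * (n.choose 3 : ℝ) ≤ (n : ℝ) ^ 3 := by
        rw [c5]
        nlinarith
      nlinarith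
    · have hb4 : m < G n a + (G n (b + 1) + u1 * (n - 2)) := by
        rcases hb3 with h | h
        · exact absurd h hbN
        · exact h
      rw [G_succ] at hb4
      refine fin a b (m - G n a - G n b) (by omega) (by omega) (by omega) ?_ ?_ ?_
      · omega
      · omega
      · have key := ineq2 (n := n) (a := a) (b := b) (w := ((n - a - b) / 2 - 1 : ℕ))
          (lo := (u1 : ℝ) * (n - 2)) hnR
          (by exact_mod_cast han) (Nat.cast_nonneg b) (by exact_mod_cast hbn) (by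
            have : n ≤ 2 * ((n - a - b) / 2 - 1) + a + b + 3 := by omega
            have : (n : ℝ) ≤ 2 * (((n - a - b) / 2 - 1 : ℕ) : ℝ) + a + b + 3 := by
              exact_mod_cast this
            linarith) hlo
        have e3 : ((n - 1 - b : ℕ) : ℝ) = (n : ℝ) - 1 - b := by
          rw [Nat.cast_sub (by omega), Nat.cast_sub (by omega)]; norm_num
        rw [← e2, ← e3] at key
        have key' : b * (n - 1 - b) + u1 * (n - 2) ≤ ((n - a - b) / 2 - 1) * (n - 2) := by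
          exact_mod_cast key
        omega
  · have ha4 : m < G n (a + 1) + u1 * (n - 2) := by
      rcases ha3 with h | h
      · exact absurd h haN
      · exact h
    rw [G_succ] at ha4
    refine fin a 0 (m - G n a) (by omega) (by omega) (by omega) ?_ ?_ ?_
    · simp only [G0] at ha2 ⊢; omega
    · omega
    · have key := ineq1 (n := n) (a := a) (w := ((n - a - 0) / 2 - 1 : ℕ))
        (lo := (u1 : ℝ) * (n - 2)) hnR (Nat.cast_nonneg a)
        (by exact_mod_cast han) (by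
          have : n ≤ 2 * ((n - a - 0) / 2 - 1) + a + 3 := by omega
          have : (n : ℝ) ≤ 2 * (((n - a - 0) / 2 - 1 : ℕ) : ℝ) + a + 3 := by
            exact_mod_cast this
          linarith) hlo
      have e3 : ((n - 1 - a : ℕ) : ℝ) = (n : ℝ) - 1 - a := by
        rw [Nat.cast_sub (by omega), Nat.cast_sub (by omega)]; norm_num
      rw [← e2, ← e3] at key
      have key' : a * (n - 1 - a) + u1 * (n - 2) ≤ ((n - a - 0) / 2 - 1) * (n - 2) := by
        exact_mod_cast key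
      omega

end Pool.Agent.Q265.Fru
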