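import Pool.Agent.Q265.Fru.Nec

set_option autoImplicit false
open Finset

namespace Pool.Agent.Q265.Fru

theorem cs (n : ℕ) : (n + 1).choose 2 = n + n.choose 2 := by
  rw [Nat.choose_succ_succ' n 1, Nat.choose_one_right]

variable {V : Type*} [Fintype V] [DecidableEq V]

theorem mem_LL_of {E : Finset (Finset V)} {T e1 e2 : Finset V} (hT : T.card = 3) (h1 : e1 ∈ E)
    (h2 : e2 ∈ E) (hne : e1 ≠ e2) (s1 : e1 ⊆ T) (s2 : e2 ⊆ T) : T ∈ LL E := by
  rw [mem_LL]
  refine ⟨hT, ?_⟩
  have : 1 < (inn E T).card :=
    one_lt_card.2 ⟨e1, mem_filter.2 ⟨h1, s1⟩, e2, mem_filter.2 ⟨h2, s2⟩, hne⟩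
  omega

/-- the double star -/
def dstar (p q : V) (A B : Finset V) : Finset (Finset V) :=
  insert {p, q} (A.image (fun a => {p, a}) ∪ B.image (fun b => {q, b}))

variable {p q : V} {A B : Finset V}

omit [Fintype V] in
theorem mem_dstar {e : Finset V} : e ∈ dstar p q A B ↔
    e = {p, q} ∨ (∃ a ∈ A, {p, a} = e) ∨ (∃ b ∈ B, {q, b} = e) := by
  simp only [dstar, mem_insert, mem_union, mem_image]

omit [Fintype V] in
theorem dstar_G (hpq : p ≠ q) (hpA : p ∉ A) (hqB : q ∉ B) : IsG (dstar p q A B) := by
  intro e he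
  rw [mem_dstar] at he
  rcases he with rfl | ⟨a, ha, rfl⟩ | ⟨b, hb, rfl⟩
  · exact card_pair hpq
  · exact card_pair (fun h => hpA (h ▸ ha))
  · exact card_pair (fun h => hqB (h ▸ hb))

omit [Fintype V] in
theorem pair_inj {x a b : V} (hb : b ≠ x) (h : ({x, b} : Finset V) = {x, a}) : b = a := by
  have : b ∈ ({x, a} : Finset V) := by rw [← h]; simp
  simp only [mem_insert, mem_singleton] at this
  tauto

omit [Fintype V] in
theorem dstar_card (hpq : p ≠ q) (hpA : p ∉ A) (hqA : q ∉ A) (hpB : p ∉ B) (hqB : q ∉ B) :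
    (dstar p q A B).card = 1 + A.card + B.card := by
  rw [dstar, card_insert_of_notMem, card_union_of_disjoint, card_image_of_injOn,
    card_image_of_injOn]
  · ring
  · intro b hb b' hb' h
    exact pair_inj (by rintro rfl; exact hqB hb) h
  · intro b hb b' hb' h
    exact pair_inj (by rintro rfl; exact hpA hb) h
  · rw [disjoint_left]
    intro e he he'
    rw [mem_image] at he he'
    obtain ⟨a, ha, rfl⟩ := he
    obtain ⟨b, hb, hbe⟩ := he'
    have : q ∈ ({p, a} : Finset V) := by rw [← hbe]; simp
    simp only [mem_insert, mem_singleton] at this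
    rcases this with h | h
    · exact hpq h.symm
    · exact hqA (h ▸ ha)
  · simp only [mem_union, mem_image, not_or, not_exists, not_and]
    constructor
    · intro a ha h
      have : q ∈ ({p, a} : Finset V) := by rw [h]; simp
      simp only [mem_insert, mem_singleton] at this
      rcases this with h | h
      · exact hpq h.symm
      · exact hqA (h ▸ ha)
    · intro b hb h
      have : p ∈ ({q, b} : Finset V) := by rw [h]; simp
      simp only [mem_insert, mem_singleton] at this
      rcases this with h | h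
      · exact hpq h
      · exact hpB (h ▸ hb)

theorem dstar_LL (hpq : p ≠ q) (hpA : p ∉ A) (hqA : q ∉ A) (hpB : p ∉ B) (hqB : q ∉ B) :
    LL (dstar p q A B) = (A ∪ B).image (fun z => {p, q, z}) ∪
      ((A.powersetCard 2).image fun P => insert p P) ∪
      ((B.powersetCard 2).image fun P => insert q P) := by
  have hG := dstar_G (A := A) (B := B) hpq hpA hqB
  apply Subset.antisymm
  · intro T hT
    obtain ⟨e1, h1, e2, h2, hne, hu, v, hv1, hv2⟩ := exists_two hG hT
    rw [mem_dstar] at h1 h2
    simp only [mem_union, mem_image, mem_powersetCard]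
    rcases h1 with rfl | ⟨a, ha, rfl⟩ | ⟨b, hb, rfl⟩ <;>
      rcases h2 with rfl | ⟨a', ha', rfl⟩ | ⟨b', hb', rfl⟩
    · exact absurd rfl hne
    · left; left
      refine ⟨a', Or.inl ha', ?_⟩
      rw [hu]; ext x; simp only [mem_insert, mem_singleton, mem_union]; tauto
    · left; left
      refine ⟨b', Or.inr hb', ?_⟩
      rw [hu]; ext x; simp only [mem_insert, mem_singleton, mem_union]; tauto
    · left; left
      refine ⟨a, Or.inl ha, ?_⟩
      rw [hu]; ext x; simp only [mem_insert, mem_singleton, mem_union]; tauto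
    · left; right
      refine ⟨{a, a'}, ⟨?_, ?_⟩, ?_⟩
      · intro x hx
        simp only [mem_insert, mem_singleton] at hx
        rcases hx with rfl | rfl <;> assumption
      · exact card_pair (fun h => hne (by rw [h]))
      · rw [hu]; ext x; simp only [mem_insert, mem_singleton, mem_union]; tauto
    · left; left
      simp only [mem_insert, mem_singleton] at hv1 hv2
      have hab : a = b' := by
        rcases hv1 with h1 | h1 <;> rcases hv2 with h2 | h2
        · exact absurd (h1.symm.trans h2) hpq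
        · exact absurd (by rw [← h1, h2]; exact hb') hpB
        · exact absurd (by rw [← h2, h1]; exact ha) hqA
        · rw [← h1, ← h2]
      refine ⟨a, Or.inl ha, ?_⟩
      rw [hu, ← hab]; ext x; simp only [mem_insert, mem_singleton, mem_union]; tauto
    · left; left
      refine ⟨b, Or.inr hb, ?_⟩
      rw [hu]; ext x; simp only [mem_insert, mem_singleton, mem_union]; tauto
    · left; left
      simp only [mem_insert, mem_singleton] at hv1 hv2
      have hab : a' = b := by
        rcases hv1 with h1 | h1 <;> rcases hv2 with h2 | h2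
        · exact absurd (h2.symm.trans h1) hpq
        · exact absurd (by rw [← h1, h2]; exact ha') hqA
        · exact absurd (by rw [← h2, h1]; exact hb) hpB
        · rw [← h1, ← h2]
      refine ⟨b, Or.inr hb, ?_⟩
      rw [hu, hab]; ext x; simp only [mem_insert, mem_singleton, mem_union]; tauto
    · right
      refine ⟨{b, b'}, ⟨?_, ?_⟩, ?_⟩
      · intro x hx
        simp only [mem_insert, mem_singleton] at hx
        rcases hx with rfl | rfl <;> assumption
      · exact card_pair (fun h => hne (by rw [h]))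
      · rw [hu]; ext x; simp only [mem_insert, mem_singleton, mem_union]; tauto
  · intro T hT
    simp only [mem_union, mem_image, mem_powersetCard] at hT
    rcases hT with (⟨z, hz, rfl⟩ | ⟨P, ⟨hPA, hP⟩, rfl⟩) | ⟨P, ⟨hPB, hP⟩, rfl⟩
    · have hzp : z ≠ p := by
        rintro rfl; rcases hz with h | h
        · exact hpA h
        · exact hpB h
      have hzq : z ≠ q := by
        rintro rfl; rcases hz with h | h
        · exact hqA h
        · exact hqB h
      have h3 : ({p, q, z} : Finset V).card = 3 := by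
        rw [card_eq_three]
        exact ⟨p, q, z, hpq, hzp.symm, hzq.symm, rfl⟩
      rcases hz with h | h
      · refine mem_LL_of h3 (e1 := {p, q}) (e2 := {p, z}) (mem_dstar.2 (Or.inl rfl))
          (mem_dstar.2 (Or.inr (Or.inl ⟨z, h, rfl⟩))) ?_ ?_ ?_
        · intro h'
          exact hzq (pair_inj hzp h'.symm)
        · intro x; simp only [mem_insert, mem_singleton]; tauto
        · intro x; simp only [mem_insert, mem_singleton]; tauto
      · refine mem_LL_of h3 (e1 := {q, p}) (e2 := {q, z}) (mem_dstar.2 (Or.inl (pair_comm _ _)))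
          (mem_dstar.2 (Or.inr (Or.inr ⟨z, h, rfl⟩))) ?_ ?_ ?_
        · intro h'
          exact hzp (pair_inj hzq h'.symm)
        · intro x; simp only [mem_insert, mem_singleton]; tauto
        · intro x; simp only [mem_insert, mem_singleton]; tauto
    · obtain ⟨a, a', hne, rfl⟩ := card_eq_two.1 hP
      have m1 : a ∈ A := hPA (by simp)
      have m2 : a' ∈ A := hPA (by simp)
      have n1 : a ≠ p := fun h => hpA (h ▸ m1)
      have n2 : a' ≠ p := fun h => hpA (h ▸ m2)
      refine mem_LL_of ?_ (e1 := {p, a}) (e2 := {p, a'})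
        (mem_dstar.2 (Or.inr (Or.inl ⟨a, m1, rfl⟩)))
        (mem_dstar.2 (Or.inr (Or.inl ⟨a', m2, rfl⟩))) ?_ ?_ ?_
      · rw [card_insert_of_notMem, card_pair hne]
        simp only [mem_insert, mem_singleton]
        rintro (h | h)
        · exact n1 h.symm
        · exact n2 h.symm
      · intro h'
        exact hne (pair_inj n1 h')
      · intro x; simp only [mem_insert, mem_singleton]; tauto
      · intro x; simp only [mem_insert, mem_singleton]; tauto
    · obtain ⟨a, a', hne, rfl⟩ := card_eq_two.1 hP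
      have m1 : a ∈ B := hPB (by simp)
      have m2 : a' ∈ B := hPB (by simp)
      have n1 : a ≠ q := fun h => hqB (h ▸ m1)
      have n2 : a' ≠ q := fun h => hqB (h ▸ m2)
      refine mem_LL_of ?_ (e1 := {q, a}) (e2 := {q, a'})
        (mem_dstar.2 (Or.inr (Or.inr ⟨a, m1, rfl⟩)))
        (mem_dstar.2 (Or.inr (Or.inr ⟨a', m2, rfl⟩))) ?_ ?_ ?_
      · rw [card_insert_of_notMem, card_pair hne]
        simp only [mem_insert, mem_singleton]
        rintro (h | h)
        · exact n1 h.symm
        · exact n2 h.symm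
      · intro h'
        exact hne (pair_inj n1 h')
      · intro x; simp only [mem_insert, mem_singleton]; tauto
      · intro x; simp only [mem_insert, mem_singleton]; tauto

theorem dstar_LL_card (hpq : p ≠ q) (hpA : p ∉ A) (hqA : q ∉ A) (hpB : p ∉ B) (hqB : q ∉ B) :
    (LL (dstar p q A B)).card = (A ∪ B).card + (A.card).choose 2 + (B.card).choose 2 := by
  rw [dstar_LL hpq hpA hqA hpB hqB, card_union_of_disjoint, card_union_of_disjoint,
    card_image_of_injOn, card_image_of_injOn, card_image_of_injOn, card_powersetCard,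
    card_powersetCard]
  · intro P hP Q hQ h
    have hP' := mem_powersetCard.1 (mem_coe.1 hP)
    have hQ' := mem_powersetCard.1 (mem_coe.1 hQ)
    have a1 : q ∉ P := fun h => hqB (hP'.1 h)
    have a2 : q ∉ Q := fun h => hqB (hQ'.1 h)
    rw [← erase_insert a1, ← erase_insert a2]
    simp only at h
    rw [h]
  · intro P hP Q hQ h
    have hP' := mem_powersetCard.1 (mem_coe.1 hP)
    have hQ' := mem_powersetCard.1 (mem_coe.1 hQ)
    have a1 : p ∉ P := fun h => hpA (hP'.1 h)
    have a2 : p ∉ Q := fun h => hpA (hQ'.1 h)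
    rw [← erase_insert a1, ← erase_insert a2]
    simp only at h
    rw [h]
  · intro z hz z' hz' h
    have hz1 := mem_union.1 (mem_coe.1 hz)
    simp only at h
    have hm : z ∈ ({p, q, z'} : Finset V) := by rw [← h]; simp
    simp only [mem_insert, mem_singleton] at hm
    rcases hm with rfl | rfl | h
    · rcases hz1 with h | h
      · exact absurd h hpA
      · exact absurd h hpB
    · rcases hz1 with h | h
      · exact absurd h hqA
      · exact absurd h hqB
    · exact h
  · rw [disjoint_left]
    intro T h1 h2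
    simp only [mem_image, mem_powersetCard] at h1 h2
    obtain ⟨z, -, rfl⟩ := h1
    obtain ⟨P, ⟨hP, -⟩, h⟩ := h2
    have : q ∈ insert p P := by rw [h]; simp
    rcases mem_insert.1 this with h | h
    · exact hpq h.symm
    · exact hqA (hP h)
  · rw [disjoint_left]
    intro T h1 h2
    simp only [mem_union, mem_image, mem_powersetCard] at h1 h2
    obtain ⟨P, ⟨hP, -⟩, rfl⟩ := h2
    rcases h1 with ⟨z, -, h⟩ | ⟨Q, -, h⟩
    · have : p ∈ insert q P := by rw [← h]; simp
      rcases mem_insert.1 this with h | h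
      · exact hpq h
      · exact hpB (hP h)
    · have : p ∈ insert q P := by rw [← h]; simp
      rcases mem_insert.1 this with h | h
      · exact hpq h
      · exact hpB (hP h)

theorem iso_LL {E : Finset (Finset V)} (hE : IsG E) {x y : V} (hxy : x ≠ y)
    (hx : ∀ e ∈ E, x ∉ e) (hy : ∀ e ∈ E, y ∉ e) : LL (insert {x, y} E) = LL E := by
  ext T
  rw [mem_LL, mem_LL]
  refine and_congr_right fun hT => ?_
  by_cases h : ({x, y} : Finset V) ⊆ T
  · have h0 : inn E T = ∅ := by
      rw [inn, filter_eq_empty_iff]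
      intro e he hs
      have h1 : e ⊆ T \ {x, y} := by
        intro z hz
        rw [mem_sdiff]
        refine ⟨hs hz, ?_⟩
        simp only [mem_insert, mem_singleton, not_or]
        exact ⟨fun h => hx e he (h ▸ hz), fun h => hy e he (h ▸ hz)⟩
      have h2 := card_le_card h1
      rw [card_sdiff_of_subset h, hT, card_pair hxy, hE e he] at h2
      omega
    have h1 : inn (insert {x, y} E) T = {{x, y}} := by
      rw [inn, filter_insert, if_pos h]
      change insert _ (inn E T) = _
      rw [h0]; rfl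
    rw [h0, h1]
    simp
  · have : inn (insert {x, y} E) T = inn E T := by
      rw [inn, filter_insert, if_neg h]; rfl
    rw [this]

theorem exists_free {E : Finset (Finset V)} (hE : IsG E) (hc : 2 * (E.card + 1) ≤ Fintype.card V) :
    ∃ x y : V, x ≠ y ∧ (∀ e ∈ E, x ∉ e) ∧ (∀ e ∈ E, y ∉ e) := by
  have h1 : (E.biUnion id).card ≤ 2 * E.card := by
    refine card_biUnion_le.trans ?_
    have : ∀ e ∈ E, (id e : Finset V).card = 2 := fun e he => hE e he
    rw [sum_congr rfl this]
    simp [mul_comm]
  have h2 : 1 < (univ \ E.biUnion id).card := by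
    rw [card_sdiff_of_subset (subset_univ _), card_univ]
    omega
  obtain ⟨x, hx, y, hy, hxy⟩ := one_lt_card.1 h2
  refine ⟨x, y, hxy, ?_, ?_⟩
  · intro e he h
    exact (mem_sdiff.1 hx).2 (mem_biUnion.2 ⟨e, he, h⟩)
  · intro e he h
    exact (mem_sdiff.1 hy).2 (mem_biUnion.2 ⟨e, he, h⟩)

theorem add_iso (m : ℕ) : ∀ {E : Finset (Finset V)}, IsG E → 2 * (E.card + m) ≤ Fintype.card V →
    ∃ E' : Finset (Finset V), IsG E' ∧ E'.card = E.card + m ∧ LL E' = LL E := by
  induction m with
  | zero => intro E hE _; exact ⟨E, hE, rfl, rfl⟩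
  | succ m ih =>
    intro E hE hc
    obtain ⟨x, y, hxy, hx, hy⟩ := exists_free hE (by omega)
    have hnot : ({x, y} : Finset V) ∉ E := fun h => hx _ h (by simp)
    have hG : IsG (insert {x, y} E) := by
      intro e he
      rcases mem_insert.1 he with rfl | h
      · exact card_pair hxy
      · exact hE e h
    have hcard : (insert {x, y} E).card = E.card + 1 := card_insert_of_notMem hnot
    obtain ⟨E', h1, h2, h3⟩ := ih hG (by rw [hcard]; omega)
    refine ⟨E', h1, by rw [h2, hcard]; ring, ?_⟩
    rw [h3, iso_LL hE hxy hx hy]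

theorem tri_level (L : ℕ) : ∃ d, 1 ≤ d ∧ d.choose 2 ≤ L ∧ L < (d + 1).choose 2 := by
  induction L with
  | zero => exact ⟨1, le_refl _, by decide, by decide⟩
  | succ L ih =>
    obtain ⟨d, h1, h2, h3⟩ := ih
    by_cases h : L + 1 < (d + 1).choose 2
    · exact ⟨d, h1, by omega, h⟩
    · refine ⟨d + 1, by omega, by omega, ?_⟩
      rw [cs]
      omega

theorem tri_upper (r : ℕ) : ∃ j c, r + c = (j + 1).choose 2 ∧ (j = 0 ∧ c = 0 ∨ c + 1 ≤ j) := by
  induction r with
  | zero => exact ⟨0, 0, by decide, Or.inl ⟨rfl, rfl⟩⟩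
  | succ r ih =>
    obtain ⟨j, c, h1, h2⟩ := ih
    by_cases hc : c = 0
    · refine ⟨j + 1, j, ?_, Or.inr (le_refl _)⟩
      rw [cs]
      omega
    · refine ⟨j, c - 1, by omega, Or.inr (by omega)⟩

theorem suff {t L : ℕ} (hV : 2 * t ≤ Fintype.card V) (hL : L ≤ t.choose 2) (hg : ¬ Gap t L) :
    ∃ E : Finset (Finset V), IsG E ∧ E.card = t ∧ (LL E).card = L := by
  rcases Nat.eq_zero_or_pos t with rfl | ht
  · have hL0 : L = 0 := by simpa using hL
    subst hL0
    refine ⟨∅, by intro e he; simp at he, rfl, ?_⟩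
    rw [card_eq_zero, LL, filter_eq_empty_iff]
    intro T _
    simp [inn]
  obtain ⟨d, hd1, hd2, hd3⟩ := tri_level L
  have hdt : d ≤ t := by
    by_contra hc
    have h1 : (t + 1).choose 2 ≤ d.choose 2 := Nat.choose_le_choose 2 (by omega)
    rw [cs] at h1
    omega
  obtain ⟨s, rfl⟩ : ∃ s, t = d + s := ⟨t - d, by omega⟩
  have hup : L ≤ d.choose 2 + (s + 1).choose 2 := by
    by_contra hc
    apply hg
    refine ⟨s, by omega, ?_, ?_⟩
    · rw [show d + s - s = d by omega]; omega
    · rw [show d + s - s = d by omega]; exact hd3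
  obtain ⟨r, rfl⟩ : ∃ r, L = d.choose 2 + r := ⟨L - d.choose 2, by omega⟩
  have hrd : r + 1 ≤ d := by
    rw [cs] at hd3
    omega
  have hrs : r ≤ (s + 1).choose 2 := by omega
  obtain ⟨j, c, h1, h2⟩ := tri_upper r
  have hjr : j ≤ r := by
    rcases h2 with ⟨h, -⟩ | h
    · omega
    · rw [cs] at h1
      have h3 : j - 1 ≤ j.choose 2 := by
        obtain ⟨i, rfl⟩ : ∃ i, j = i + 1 := ⟨j - 1, by omega⟩
        rw [cs]
        omega
      omega
  have hjs : j ≤ s := by
    by_contra hc
    have h3 : (s + 1).choose 2 ≤ j.choose 2 := Nat.choose_le_choose 2 (by omega)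
    rw [cs] at h1
    omega
  -- the sets
  have hcard2 : 1 < (univ : Finset V).card := by rw [card_univ]; omega
  obtain ⟨p, -, q, -, hpq⟩ := one_lt_card.1 hcard2
  have hU : ((univ : Finset V) \ {p, q}).card = Fintype.card V - 2 := by
    rw [card_sdiff_of_subset (subset_univ _), card_pair hpq, card_univ]
  obtain ⟨W, hWU, hW⟩ := exists_subset_card_eq
    (s := (univ : Finset V) \ {p, q}) (n := d - 1 + (j - c)) (by rw [hU]; omega)
  obtain ⟨A, hAW, hA⟩ := exists_subset_card_eq (s := W) (n := d - 1) (by omega)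
  obtain ⟨C, hCA, hC⟩ := exists_subset_card_eq (s := A) (n := c) (by omega)
  set B := (W \ A) ∪ C with hB
  have hpW : p ∉ W := fun h => (mem_sdiff.1 (hWU h)).2 (by simp)
  have hqW : q ∉ W := fun h => (mem_sdiff.1 (hWU h)).2 (by simp)
  have hBW : B ⊆ W := union_subset sdiff_subset (hCA.trans hAW)
  have hBcard : B.card = j := by
    rw [hB, card_union_of_disjoint, card_sdiff_of_subset hAW, hW, hA, hC]
    · omega
    · rw [disjoint_left]
      intro x hx hx'
      exact (mem_sdiff.1 hx).2 (hCA hx')
  have hAB : A ∪ B = W := by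
    apply Subset.antisymm (union_subset hAW hBW)
    intro x hx
    by_cases h : x ∈ A
    · exact mem_union_left _ h
    · exact mem_union_right _ (mem_union_left _ (mem_sdiff.2 ⟨hx, h⟩))
  have hpA : p ∉ A := fun h => hpW (hAW h)
  have hqA : q ∉ A := fun h => hqW (hAW h)
  have hpB : p ∉ B := fun h => hpW (hBW h)
  have hqB : q ∉ B := fun h => hqW (hBW h)
  have hG := dstar_G (A := A) (B := B) hpq hpA hqB
  have hc := dstar_card hpq hpA hqA hpB hqB
  have hLc := dstar_LL_card hpq hpA hqA hpB hqB
  rw [hA, hBcard] at hc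
  rw [hAB, hW, hA, hBcard] at hLc
  obtain ⟨E', g1, g2, g3⟩ := add_iso (s - j) hG (by rw [hc]; omega)
  refine ⟨E', g1, by rw [g2, hc]; omega, ?_⟩
  rw [g3, hLc]
  obtain ⟨i, rfl⟩ : ∃ i, d = i + 1 := ⟨d - 1, by omega⟩
  rw [cs]
  rw [cs] at h1
  simp only [Nat.add_sub_cancel]
  omega

end Pool.Agent.Q265.Fru
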